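import Pool.Agent.N881.RP.H
import Pool.Agent.R409.EV.Prod

/-!
# L-functions of varieties: the modulus on the edge and the continuation
-/

set_option autoImplicit false

namespace Pool.Agent.N881.RP

open Complex MeasureTheory Filter Topology Set Metric NumberField IsDedekindDomain Polynomial
open scoped ComplexConjugate
open Pool.Agent.TH339.MP (PP FF bb bl norm_bb nm)
open Pool.Agent.TH958.BV (IsFrobenius IsEulerSystem LFun edgePoint angle localFactor)
open Pool.Agent.R409.EV (DD be norm_be LFun_eq DD_analytic DD_line)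

variable {K : Type} [Field K] [NumberField K] {n : ℕ}
  {X : Set (MvPolynomial (Fin n) (𝓞 K))} {d i N : ℕ} {B : HeightOneSpectrum (𝓞 K) → ℂ[X]}

/-- the abscissa of the edge -/
noncomputable def ed (i : ℕ) : ℝ := (i : ℝ) / 2 + 1

lemma half_eq (i : ℕ) : ((i : ℂ) / 2) = (((i : ℝ) / 2 : ℝ) : ℂ) := by push_cast; rfl

lemma re_half (i : ℕ) (s : ℂ) : (s - (i : ℂ) / 2).re = s.re - (i : ℝ) / 2 := by
  rw [half_eq, sub_re, Complex.ofReal_re]

lemma pt_edge (i : ℕ) (τ : ℝ) : pt (ed i) τ = edgePoint i τ := rfl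

lemma pt_sub (i : ℕ) (τ : ℝ) : pt (ed i) τ - (i : ℂ) / 2 = 1 + τ * I := by
  unfold pt ed
  push_cast
  ring

lemma ep_eq (τ : ℝ) : Pool.Agent.TH345.ET.ep τ = 1 + τ * I := rfl

lemma L_eq (hB : IsEulerSystem X d i N B) {s : ℂ} (hs : ed i < s.re) :
    LFun B s = (DD hB (s - (i : ℂ) / 2))⁻¹ *
      Complex.exp (FF (bb (be X d i N B)) (s - (i : ℂ) / 2)) := by
  have h1 : 1 < (s - (i : ℂ) / 2).re := by
    rw [re_half]
    unfold ed at hs
    linarith
  have h2 := LFun_eq hB h1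
  rwa [sub_add_cancel] at h2

/-- the boundary function -/
noncomputable def bdry (hB : IsEulerSystem X d i N B) (τ : ℝ) : ℂ :=
  (DD hB (1 + τ * I))⁻¹ * Complex.exp (bl (bb (be X d i N B)) τ)

lemma bdry_angle (hB : IsEulerSystem X d i N B) : ∃ Z : Set ℝ, dimH Z = 0 ∧ ∀ τ : ℝ, τ ∉ Z →
    bdry hB τ ≠ 0 ∧ ∀ C : ℝ, Tendsto (LFun B) (𝓝[angle i τ C] (edgePoint i τ))
      (𝓝 (bdry hB τ)) := by
  have hb := norm_bb (norm_be X d i N B)
  set b := bb (be X d i N B) with hbdef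
  have hdim := (Pool.Agent.TH339.MP.boundary hb).2.1
  refine ⟨Pool.Agent.W350.Edge.divSet (Pool.Agent.TH339.MP.ap b) ∪
    {τ : ℝ | DD hB (Pool.Agent.TH345.ET.ep τ) = 0}, ?_, fun τ hτ => ?_⟩
  · rw [dimH_union, hdim, (DD_line hB).dimH_zero, max_self]
  rw [Set.mem_union, not_or] at hτ
  obtain ⟨hτ1, hτ2⟩ := hτ
  have hne : DD hB (1 + τ * I) ≠ 0 := hτ2
  refine ⟨mul_ne_zero (inv_ne_zero hne) (Complex.exp_ne_zero _), fun C => ?_⟩
  have h5 := (Complex.continuous_exp.tendsto _).comp (Pool.Agent.TH339.MP.bl_angle hb hτ1 C)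
  have h6 : Tendsto (fun s : ℂ => s - edgePoint i τ) (𝓝[angle i τ C] (edgePoint i τ))
      (𝓝[{z : ℂ | 0 < z.re ∧ ‖z‖ ≤ C * z.re}] 0) := by
    rw [tendsto_nhdsWithin_iff]
    constructor
    · have h7 : Tendsto (fun s : ℂ => s - edgePoint i τ) (𝓝 (edgePoint i τ))
          (𝓝 (edgePoint i τ - edgePoint i τ)) :=
        (continuous_id.sub continuous_const).tendsto _
      rw [sub_self] at h7
      exact h7.mono_left nhdsWithin_le_nhds
    · filter_upwards [self_mem_nhdsWithin] with s hs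
      have hre : (s - edgePoint i τ).re = s.re - ((i : ℝ) / 2 + 1) := by
        unfold edgePoint
        simp
      refine ⟨?_, ?_⟩
      · rw [hre]
        linarith [hs.1]
      · rw [hre]
        exact hs.2
  have h7 : Tendsto (fun s : ℂ => (DD hB (s - (i : ℂ) / 2))⁻¹)
      (𝓝[angle i τ C] (edgePoint i τ)) (𝓝 (DD hB (1 + τ * I))⁻¹) := by
    have h8 : Tendsto (fun s : ℂ => s - (i : ℂ) / 2) (𝓝 (edgePoint i τ))
        (𝓝 (edgePoint i τ - (i : ℂ) / 2)) :=
      (continuous_id.sub continuous_const).tendsto _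
    rw [← pt_edge, pt_sub] at h8
    exact ((((DD_analytic hB _).continuousAt.tendsto).comp h8).inv₀ hne).mono_left
      nhdsWithin_le_nhds
  refine (h7.mul (h5.comp h6)).congr' ?_
  filter_upwards [self_mem_nhdsWithin] with s hs
  rw [L_eq hB hs.1]
  simp only [Function.comp_apply]
  congr 3
  rw [← pt_edge, ← pt_sub i τ]
  ring

lemma bdry_radial (hB : IsEulerSystem X d i N B) :
    ∀ᵐ τ : ℝ, Tendsto (fun x : ℝ => LFun B (pt (ed i) τ + x)) (𝓝[>] 0) (𝓝 (bdry hB τ)) := by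
  obtain ⟨Z, hZ, h⟩ := bdry_angle hB
  have hvol : volume Z = 0 := by
    have h3 := hausdorffMeasure_of_dimH_lt (s := Z) (d := 1) (by rw [hZ]; simp)
    rw [NNReal.coe_one, hausdorffMeasure_real] at h3
    exact h3
  filter_upwards [measure_eq_zero_iff_ae_notMem.1 hvol] with τ hτ
  refine ((h τ hτ).2 1).comp ?_
  rw [tendsto_nhdsWithin_iff]
  constructor
  · have h4 : Continuous fun x : ℝ => (pt (ed i) τ + x : ℂ) := by fun_prop
    have h5 := h4.tendsto 0
    rw [Complex.ofReal_zero, add_zero] at h5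
    exact h5.mono_left nhdsWithin_le_nhds
  · filter_upwards [self_mem_nhdsWithin] with x hx
    have hx' : (0 : ℝ) < x := hx
    have h1 : (pt (ed i) (τ : ℂ) + (x : ℂ)).re = (i : ℝ) / 2 + 1 + x := by
      rw [add_re, pt_re, Complex.ofReal_re, Complex.ofReal_im]
      unfold ed
      ring
    refine ⟨by rw [h1]; linarith, ?_⟩
    rw [h1, pt_edge, add_sub_cancel_left, Complex.norm_real, Real.norm_of_nonneg hx'.le]
    linarith

lemma bdry_ne (hB : IsEulerSystem X d i N B) : ∀ᵐ τ : ℝ, bdry hB τ ≠ 0 := by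
  obtain ⟨Z, hZ, h⟩ := bdry_angle hB
  have hvol : volume Z = 0 := by
    have h3 := hausdorffMeasure_of_dimH_lt (s := Z) (d := 1) (by rw [hZ]; simp)
    rw [NNReal.coe_one, hausdorffMeasure_real] at h3
    exact h3
  filter_upwards [measure_eq_zero_iff_ae_notMem.1 hvol] with τ hτ
  exact (h τ hτ).1

lemma analytic_shift {f : ℂ → ℂ} {c s : ℂ} (hf : AnalyticAt ℂ f (s - c)) :
    AnalyticAt ℂ (fun w => f (w - c)) s :=
  AnalyticAt.fun_comp (g := f) (f := fun w : ℂ => w - c) hf (analyticAt_id.sub analyticAt_const)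

lemma LFun_mero (hB : IsEulerSystem X d i N B) {s : ℂ} (hs : ed i < s.re) :
    MeromorphicAt (LFun B) s := by
  have hb := norm_bb (norm_be X d i N B)
  have hop : IsOpen {w : ℂ | ed i < w.re} := isOpen_lt continuous_const Complex.continuous_re
  have hop1 : IsOpen {w : ℂ | 1 < w.re} := isOpen_lt continuous_const Complex.continuous_re
  have h1 : 1 < (s - (i : ℂ) / 2).re := by
    rw [re_half]
    unfold ed at hs
    linarith
  have h2 : AnalyticAt ℂ (fun w => FF (bb (be X d i N B)) (w - (i : ℂ) / 2)) s :=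
    analytic_shift (((Pool.Agent.TH339.MP.differentiableOn_FF hb).analyticAt (hop1.mem_nhds h1)))
  have h3 : AnalyticAt ℂ (fun w => DD hB (w - (i : ℂ) / 2)) s := analytic_shift (DD_analytic hB _)
  refine (h3.meromorphicAt.inv.mul h2.cexp.meromorphicAt).congr ?_
  refine Filter.Eventually.filter_mono nhdsWithin_le_nhds ?_
  filter_upwards [hop.mem_nhds hs] with w hw
  exact (L_eq hB hw).symm

lemma LFun_analytic (hB : IsEulerSystem X d i N B)
    (hfin : ∀ (v : HeightOneSpectrum (𝓞 K)) (s : ℂ), (i : ℝ) / 2 + 1 < s.re →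
      (B v).eval ((Ideal.absNorm v.asIdeal : ℂ) ^ (-s)) ≠ 0) {s : ℂ} (hs : ed i < s.re) :
    AnalyticAt ℂ (LFun B) s ∧ LFun B s ≠ 0 := by
  have hb := norm_bb (norm_be X d i N B)
  have hop : IsOpen {w : ℂ | ed i < w.re} := isOpen_lt continuous_const Complex.continuous_re
  have hop1 : IsOpen {w : ℂ | 1 < w.re} := isOpen_lt continuous_const Complex.continuous_re
  have h1 : 1 < (s - (i : ℂ) / 2).re := by
    rw [re_half]
    unfold ed at hs
    linarith
  have hD : DD hB (s - (i : ℂ) / 2) ≠ 0 := by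
    unfold DD
    refine Finset.prod_ne_zero_iff.2 fun v _ => ?_
    rw [sub_add_cancel]
    exact hfin v s hs
  have h2 : AnalyticAt ℂ (fun w => FF (bb (be X d i N B)) (w - (i : ℂ) / 2)) s :=
    analytic_shift (((Pool.Agent.TH339.MP.differentiableOn_FF hb).analyticAt (hop1.mem_nhds h1)))
  have h3 : AnalyticAt ℂ (fun w => DD hB (w - (i : ℂ) / 2)) s := analytic_shift (DD_analytic hB _)
  refine ⟨((h3.inv hD).mul h2.cexp).congr ?_, ?_⟩
  · filter_upwards [hop.mem_nhds hs] with w hw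
    exact (L_eq hB hw).symm
  · rw [L_eq hB hs]
    exact mul_ne_zero (inv_ne_zero hD) (Complex.exp_ne_zero _)

/-- **From the modulus to a local continuation.** -/
theorem local_of_modulus (hB : IsEulerSystem X d i N B) {G : ℂ → ℂ} {τ0 δ0 : ℝ} (hδ0 : 0 < δ0)
    (hG : MeromorphicAt G (τ0 : ℂ))
    (hGl : ∀ᵐ u : ℝ, |u - τ0| < δ0 → G u = ((‖bdry hB u‖ ^ 2 : ℝ) : ℂ)) :
    ∃ ψ : ℂ → ℂ, MeromorphicAt ψ (pt (ed i) τ0) ∧
      ∀ᶠ s in 𝓝 (pt (ed i) τ0), ed i < s.re → ψ s = LFun B s := by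
  have hb := norm_bb (norm_be X d i N B)
  obtain ⟨ψ, hψ, h⟩ := mero_local hb (D := DD hB) (DD_analytic hB) (DD_line hB) hδ0 hG hGl
  rw [← pt_sub i τ0] at hψ h
  refine ⟨fun s => ψ (s - (i : ℂ) / 2), ?_, ?_⟩
  · exact hψ.comp_analyticAt (g := fun s : ℂ => s - (i : ℂ) / 2)
      (analyticAt_id.sub analyticAt_const)
  · have h8 : Tendsto (fun s : ℂ => s - (i : ℂ) / 2) (𝓝 (pt (ed i) τ0))
        (𝓝 (pt (ed i) τ0 - (i : ℂ) / 2)) := (continuous_id.sub continuous_const).tendsto _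
    filter_upwards [h8.eventually h] with s hs h1
    have h2 : 1 < (s - (i : ℂ) / 2).re := by
      rw [re_half]
      unfold ed at h1
      linarith
    rw [hs h2, L_eq hB h1]

end Pool.Agent.N881.RP
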