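import Pool.Agent.TH339.MP.U3
import Pool.Agent.TH339.MP.X6
import Pool.Agent.H18R3.Refl

/-!
# The primitive of the logarithm of an Euler product is continuous up to the edge
-/

set_option autoImplicit false

namespace Pool.Agent.N881.RP

open Complex MeasureTheory Filter Topology Set
open Pool.Agent.TH339.MP

variable {b : PP → ℂ} {M : ℝ}

lemma fr_le (x : PP) : fr x ≤ -Real.log 2 := by
  unfold fr
  have h1 : Real.log 2 ≤ Real.log ((x.1 : ℕ) : ℝ) :=
    Real.log_le_log (by norm_num) (two_le_prime x.1)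
  have h2 : (1 : ℝ) ≤ ((x.2 + 1 : ℕ) : ℝ) := by exact_mod_cast Nat.le_add_left 1 x.2
  have h3 : 0 ≤ Real.log 2 := Real.log_nonneg (by norm_num)
  nlinarith

lemma fr_neg (x : PP) : fr x < 0 :=
  lt_of_le_of_lt (fr_le x) (by
    have := Real.log_pos (show (1 : ℝ) < 2 by norm_num)
    linarith)

lemma exp_fr_le (x : PP) : Real.exp (fr x) ≤ 1 / 2 := by
  calc Real.exp (fr x) ≤ Real.exp (-Real.log 2) := Real.exp_le_exp.2 (fr_le x)
    _ = 1 / 2 := by rw [Real.exp_neg, Real.exp_log (by norm_num)]; norm_num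

/-- the weight of the primitive -/
noncomputable def cw (x : PP) : ℝ := wt 1 x / ((x.2 + 1 : ℕ) * (-fr x))

lemma cw_nonneg (x : PP) : 0 ≤ cw x := by
  unfold cw
  have := fr_neg x
  have h2 := wt_nonneg 1 x
  have h3 : (0 : ℝ) < ((x.2 + 1 : ℕ) : ℝ) := by positivity
  exact div_nonneg h2 (mul_nonneg h3.le (by linarith))

lemma ZZ_le {y : ℝ} (h0 : 0 < y) (h1 : y ≤ 1) : ZZ (1 + y) ≤ Real.log 3 - Real.log y := by
  have hσ : 1 < 1 + y := by linarith
  have h2 := exp_ZZ hσ
  have h3 := zeta_norm_bound (s := ((1 + y : ℝ) : ℂ)) (by rw [Complex.ofReal_re]; exact hσ)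
  have n1 : ‖((1 + y : ℝ) : ℂ)‖ = 1 + y := by
    rw [Complex.norm_real, Real.norm_of_nonneg (by linarith)]
  have n2 : ‖((1 + y : ℝ) : ℂ) - 1‖ = y := by
    have : ((1 + y : ℝ) : ℂ) - 1 = ((y : ℝ) : ℂ) := by push_cast; ring
    rw [this, Complex.norm_real, Real.norm_of_nonneg h0.le]
  rw [n1, n2, Complex.ofReal_re, ← h2] at h3
  have h4 : (1 + y) * (1 / y + 1 / (1 + y)) ≤ 3 / y := by
    have hy : (1 + y) ≠ 0 := by positivity
    have e1 : (1 + y) * (1 / y + 1 / (1 + y)) = (1 + y) / y + 1 := by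
      field_simp
    have e2 : (1 + y) / y + 1 = (1 + 2 * y) / y := by
      field_simp
      ring
    rw [e1, e2]
    gcongr
    linarith
  rw [← Real.log_div (by norm_num) h0.ne']
  rw [Real.le_log_iff_exp_le (by positivity)]
  exact h3.trans h4

lemma integral_exp_fr (x : PP) : wt 1 x / (2 * (-fr x)) ≤ ∫ y in (0 : ℝ)..1, wt (1 + y) x := by
  have hfr := fr_neg x
  have h1 : ∀ y : ℝ, wt (1 + y) x = wt 1 x * Real.exp (y * fr x) := by
    intro y
    rw [wt_exp, wt_exp, ← Real.exp_add]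
    congr 1
    ring
  simp_rw [h1]
  rw [intervalIntegral.integral_const_mul]
  have h2 : ∫ y in (0 : ℝ)..1, Real.exp (y * fr x) = (Real.exp (fr x) - 1) / fr x := by
    rw [intervalIntegral.integral_comp_mul_right (fun y => Real.exp y) hfr.ne]
    rw [integral_exp, zero_mul, one_mul, Real.exp_zero, smul_eq_mul]
    field_simp
  rw [h2, div_eq_mul_inv]
  refine mul_le_mul_of_nonneg_left ?_ (wt_nonneg 1 x)
  have h3 := exp_fr_le x
  have h4 : (Real.exp (fr x) - 1) / fr x = (1 - Real.exp (fr x)) / (-fr x) := by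
    rw [← neg_div_neg_eq]
    congr 1
    ring
  rw [h4, ← one_div, div_le_div_iff₀ (by linarith) (by linarith)]
  nlinarith

lemma wt_eq (σ : ℝ) (x : PP) : wt σ x = Real.exp (σ * fr x) := wt_exp σ x

lemma summable_cw : Summable cw := by
  refine summable_of_sum_le (c := 2 * ∫ y in (0 : ℝ)..1, (Real.log 3 - Real.log y))
    cw_nonneg fun S => ?_
  have hcont : ∀ x : PP, Continuous fun y : ℝ => wt (1 + y) x := by
    intro x
    simp_rw [wt_eq]
    fun_prop
  have h1 : ∀ x : PP, cw x ≤ 2 * ∫ y in (0 : ℝ)..1, wt (1 + y) x / (x.2 + 1 : ℕ) := by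
    intro x
    have h2 := integral_exp_fr x
    have h3 : (0 : ℝ) < ((x.2 + 1 : ℕ) : ℝ) := by positivity
    have hfr := fr_neg x
    rw [intervalIntegral.integral_div]
    unfold cw
    have h4 : wt 1 x / (((x.2 + 1 : ℕ) : ℝ) * -fr x) =
        2 * (wt 1 x / (2 * -fr x)) / ((x.2 + 1 : ℕ) : ℝ) := by
      have : fr x ≠ 0 := hfr.ne
      field_simp
    rw [h4, mul_div_assoc]
    gcongr
  calc ∑ x ∈ S, cw x ≤ ∑ x ∈ S, 2 * ∫ y in (0 : ℝ)..1, wt (1 + y) x / (x.2 + 1 : ℕ) :=
        Finset.sum_le_sum fun x _ => h1 x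
    _ = 2 * ∫ y in (0 : ℝ)..1, ∑ x ∈ S, wt (1 + y) x / (x.2 + 1 : ℕ) := by
        rw [← Finset.mul_sum, intervalIntegral.integral_finsetSum]
        intro x _
        exact ((hcont x).div_const _).intervalIntegrable _ _
    _ ≤ 2 * ∫ y in (0 : ℝ)..1, (Real.log 3 - Real.log y) := by
        refine mul_le_mul_of_nonneg_left ?_ (by norm_num)
        refine intervalIntegral.integral_mono_on_of_le_Ioo zero_le_one ?_ ?_ ?_
        · exact (continuous_finsetSum _ fun x _ => (hcont x).div_const _).intervalIntegrable _ _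
        · exact intervalIntegrable_const.sub intervalIntegral.intervalIntegrable_log'
        · intro y hy
          refine le_trans ?_ (ZZ_le hy.1 hy.2.le)
          unfold ZZ
          refine (summable_wt (by linarith [hy.1])).sum_le_tsum _ fun x _ => ?_
          exact div_nonneg (wt_nonneg _ _) (by positivity)

/-- the primitive -/
noncomputable def Pr (b : PP → ℂ) (s : ℂ) : ℂ := ∑' x, tm b s x / (fr x : ℂ)

lemma tm_exp (b : PP → ℂ) (s : ℂ) (x : PP) : tm b s x = b x * Complex.exp (s * (fr x : ℂ)) := by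
  have hne : ((x.1 : ℕ) : ℂ) ≠ 0 := by exact_mod_cast x.1.2.ne_zero
  unfold tm
  congr 1
  rw [cpow_def_of_ne_zero hne, ← Complex.exp_nat_mul]
  congr 1
  unfold fr
  have h1 : Complex.log ((x.1 : ℕ) : ℂ) = ((Real.log (x.1 : ℕ) : ℝ) : ℂ) := by
    rw [Complex.ofReal_log (prime_pos x.1).le]
    simp
  rw [h1]
  push_cast
  ring

lemma norm_Pr_term (hb : ∀ x, ‖b x‖ ≤ M / (x.2 + 1 : ℕ)) {s : ℂ} (hs : 1 ≤ s.re) (x : PP) :
    ‖tm b s x / (fr x : ℂ)‖ ≤ M * cw x := by
  have hfr := fr_neg x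
  rw [norm_div, norm_tm, Complex.norm_real, Real.norm_eq_abs, abs_of_neg hfr]
  have h1 : ‖b x‖ * wt s.re x ≤ (M / (x.2 + 1 : ℕ)) * wt 1 x :=
    mul_le_mul (hb x) (wt_anti' hs x) (wt_nonneg _ _)
      (div_nonneg (M_nonneg hb) (by positivity))
  calc ‖b x‖ * wt s.re x / (-fr x) ≤ (M / (x.2 + 1 : ℕ)) * wt 1 x / (-fr x) := by
        have : 0 ≤ -fr x := by linarith
        gcongr
    _ = M * cw x := by
        unfold cw
        have h3 : ((x.2 + 1 : ℕ) : ℝ) ≠ 0 := by positivity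
        have h4 : fr x ≠ 0 := hfr.ne
        field_simp

lemma summable_Pr (hb : ∀ x, ‖b x‖ ≤ M / (x.2 + 1 : ℕ)) {s : ℂ} (hs : 1 ≤ s.re) :
    Summable fun x => tm b s x / (fr x : ℂ) :=
  Summable.of_norm_bounded (summable_cw.mul_left M) fun x => norm_Pr_term hb hs x

lemma differentiable_term (b : PP → ℂ) (x : PP) :
    Differentiable ℂ fun s => tm b s x / (fr x : ℂ) := by
  simp_rw [tm_exp]
  fun_prop

lemma Pr_continuousOn (hb : ∀ x, ‖b x‖ ≤ M / (x.2 + 1 : ℕ)) :
    ContinuousOn (Pr b) {s : ℂ | 1 ≤ s.re} := by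
  unfold Pr
  exact continuousOn_tsum (fun x => (differentiable_term b x).continuous.continuousOn)
    (summable_cw.mul_left M) fun x s hs => norm_Pr_term hb hs x

lemma Pr_hasDerivAt (hb : ∀ x, ‖b x‖ ≤ M / (x.2 + 1 : ℕ)) {s : ℂ} (hs : 1 < s.re) :
    HasDerivAt (Pr b) (FF b s) s := by
  have hopen : IsOpen {s : ℂ | 1 < s.re} := isOpen_lt continuous_const Complex.continuous_re
  have hd : ∀ x : PP, DifferentiableOn ℂ (fun s => tm b s x / (fr x : ℂ)) {s : ℂ | 1 < s.re} :=
    fun x => (differentiable_term b x).differentiableOn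
  have hle : ∀ (x : PP) (w : ℂ), w ∈ {s : ℂ | 1 < s.re} → ‖tm b w x / (fr x : ℂ)‖ ≤ M * cw x :=
    fun x w hw => norm_Pr_term hb (le_of_lt hw) x
  have h1 := Complex.hasSum_deriv_of_summable_norm (summable_cw.mul_left M) hd hopen hle hs
  have h2 := Complex.differentiableOn_tsum_of_summable_norm (summable_cw.mul_left M) hd hopen hle
  have h3 : DifferentiableAt ℂ (Pr b) s := (h2 s hs).differentiableAt (hopen.mem_nhds hs)
  have h4 : ∀ x : PP, deriv (fun s => tm b s x / (fr x : ℂ)) s = tm b s x := by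
    intro x
    have hfr : (fr x : ℂ) ≠ 0 := by exact_mod_cast (fr_neg x).ne
    have h5 : HasDerivAt (fun s => tm b s x / (fr x : ℂ))
        (b x * (Complex.exp (s * (fr x : ℂ)) * (1 * (fr x : ℂ))) / (fr x : ℂ)) s := by
      simp_rw [tm_exp]
      exact ((((hasDerivAt_id s).mul_const _).cexp).const_mul _).div_const _
    rw [h5.deriv, tm_exp]
    field_simp
  simp_rw [h4] at h1
  have h5 : FF b s = deriv (Pr b) s := h1.tsum_eq
  rw [h5]
  exact h3.hasDerivAt

end Pool.Agent.N881.RP
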