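import Pool.Agent.N881.RP.A

/-!
# The boundary function is the derivative of the primitive along the edge
-/

set_option autoImplicit false

namespace Pool.Agent.N881.RP

open Complex MeasureTheory Filter Topology Set
open Pool.Agent.TH339.MP

variable {b : PP → ℂ} {M : ℝ}

lemma tendsto_TX : Tendsto TX atTop atTop := by
  refine tendsto_atTop_finset_of_monotone ?_ ?_
  · intro X Y hXY x hx
    rw [mem_TX] at hx ⊢
    exact hx.trans hXY
  · intro x
    exact ⟨_, (mem_TX _ _).2 le_rfl⟩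

lemma integral_ee {l : ℝ} (hl : l ≠ 0) (u0 u1 : ℝ) :
    I * ∫ u in u0..u1, ee l u = (ee l u1 - ee l u0) / l := by
  have hlI : (l * I : ℂ) ≠ 0 := mul_ne_zero (by exact_mod_cast hl) I_ne_zero
  have h2 := integral_exp_mul_complex (a := u0) (b := u1) hlI
  have h3 : ∀ x : ℝ, ee l x = Complex.exp (l * I * x) := by
    intro x
    rw [ee]
    congr 1
    push_cast
    ring
  simp_rw [h3]
  rw [h2]
  have hl' : (l : ℂ) ≠ 0 := by exact_mod_cast hl
  field_simp

lemma integral_PS (b : PP → ℂ) (X : ℕ) (u0 u1 : ℝ) :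
    I * ∫ u in u0..u1, PS b X u = (∑ x ∈ TX X, tm b (1 + u1 * I) x / (fr x : ℂ)) -
      ∑ x ∈ TX X, tm b (1 + u0 * I) x / (fr x : ℂ) := by
  unfold PS
  have hi : ∀ x ∈ TX X, IntervalIntegrable (fun u => (b x * (wt 1 x : ℂ)) * ee (fr x) u)
      volume u0 u1 := fun x _ => (continuous_const.mul (continuous_ee _)).intervalIntegrable _ _
  rw [intervalIntegral.integral_finsetSum hi, Finset.mul_sum, ← Finset.sum_sub_distrib]
  refine Finset.sum_congr rfl fun x _ => ?_
  have h1 : ∀ u : ℝ, tm b (1 + u * I) x = (b x * (wt 1 x : ℂ)) * ee (fr x) u := by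
    intro u
    have := tm_eq b 1 u x
    rwa [Complex.ofReal_one] at this
  rw [intervalIntegral.integral_const_mul, h1, h1]
  have h2 := integral_ee (fr_neg x).ne u0 u1
  calc I * (b x * (wt 1 x : ℂ) * ∫ u in u0..u1, ee (fr x) u)
      = b x * (wt 1 x : ℂ) * (I * ∫ u in u0..u1, ee (fr x) u) := by ring
    _ = _ := by
        rw [h2]
        ring

/-- convergence in the mean -/
lemma lint_norm (hb : ∀ x, ‖b x‖ ≤ M / (x.2 + 1 : ℕ)) {X : ℕ} (hX : 2 ≤ X) (t : ℝ) {η : ℝ}
    (hη : 0 < η) :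
    ∫⁻ u in Icc t (t + 1), ENNReal.ofReal ‖bl b u - PS b X u‖ ≤
      ENNReal.ofReal (η / 2 + 64800 * M ^ 2 / Real.log X / (2 * η)) := by
  have h1 := (boundary hb).2.2 X hX t
  have hX0 : 0 ≤ Real.log X := Real.log_nonneg (by exact_mod_cast (by omega : 1 ≤ X))
  have h0 : 0 ≤ 64800 * M ^ 2 / Real.log X := by positivity
  have h2 : ∀ u : ℝ, ENNReal.ofReal ‖bl b u - PS b X u‖ ≤
      ENNReal.ofReal (η / 2) + ENNReal.ofReal (1 / (2 * η)) *
        ENNReal.ofReal (‖bl b u - PS b X u‖ ^ 2) := by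
    intro u
    rw [← ENNReal.ofReal_mul (by positivity), ← ENNReal.ofReal_add (by positivity) (by positivity)]
    refine ENNReal.ofReal_le_ofReal ?_
    set z := ‖bl b u - PS b X u‖
    have : 0 ≤ (z - η) ^ 2 := sq_nonneg _
    have h3 : z ≤ (η ^ 2 + z ^ 2) / (2 * η) := by
      rw [le_div_iff₀ (by positivity)]
      nlinarith
    calc z ≤ (η ^ 2 + z ^ 2) / (2 * η) := h3
      _ = η / 2 + 1 / (2 * η) * z ^ 2 := by
          field_simp
  calc ∫⁻ u in Icc t (t + 1), ENNReal.ofReal ‖bl b u - PS b X u‖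
      ≤ ∫⁻ u in Icc t (t + 1), (ENNReal.ofReal (η / 2) + ENNReal.ofReal (1 / (2 * η)) *
        ENNReal.ofReal (‖bl b u - PS b X u‖ ^ 2)) := lintegral_mono h2
    _ = ENNReal.ofReal (η / 2) * volume (Icc t (t + 1)) + ENNReal.ofReal (1 / (2 * η)) *
        ∫⁻ u in Icc t (t + 1), ENNReal.ofReal (‖bl b u - PS b X u‖ ^ 2) := by
        rw [lintegral_add_left measurable_const, setLIntegral_const, lintegral_const_mul' _ _
          ENNReal.ofReal_ne_top]
    _ ≤ ENNReal.ofReal (η / 2) * 1 + ENNReal.ofReal (1 / (2 * η)) *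
        ENNReal.ofReal (64800 * M ^ 2 / Real.log X) := by
        have hv : volume (Icc t (t + 1)) = 1 := by
          rw [Real.volume_Icc]
          simp
        rw [hv]
        gcongr
    _ = _ := by
        rw [mul_one, ← ENNReal.ofReal_mul (by positivity), ← ENNReal.ofReal_add (by positivity)
          (by positivity)]
        congr 1
        ring

lemma integrable_bl (hb : ∀ x, ‖b x‖ ≤ M / (x.2 + 1 : ℕ)) (t : ℝ) :
    IntegrableOn (bl b) (Icc t (t + 1)) := by
  have hm : AEStronglyMeasurable (bl b) (volume.restrict (Icc t (t + 1))) :=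
    (boundary hb).1.aestronglyMeasurable.restrict
  have hP : IntegrableOn (PS b 2) (Icc t (t + 1)) :=
    (continuous_PS b 2).continuousOn.integrableOn_compact isCompact_Icc
  have h1 : IntegrableOn (fun u => bl b u - PS b 2 u) (Icc t (t + 1)) := by
    refine ⟨hm.sub hP.1, ?_⟩
    have h2 := lint_norm hb le_rfl t one_pos
    rw [hasFiniteIntegral_iff_norm]
    exact lt_of_le_of_lt h2 ENNReal.ofReal_lt_top
  have h2 := h1.add hP
  refine h2.congr_fun (fun u _ => ?_) measurableSet_Icc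
  simp

lemma intervalIntegrable_bl (hb : ∀ x, ‖b x‖ ≤ M / (x.2 + 1 : ℕ)) {t u0 u1 : ℝ}
    (h0 : u0 ∈ Icc t (t + 1)) (h1 : u1 ∈ Icc t (t + 1)) :
    IntervalIntegrable (bl b) volume u0 u1 := by
  rw [intervalIntegrable_iff]
  refine (integrable_bl hb t).mono_set ?_
  refine uIoc_subset_uIcc.trans ?_
  exact uIcc_subset_Icc h0 h1

lemma tendsto_integral_PS (hb : ∀ x, ‖b x‖ ≤ M / (x.2 + 1 : ℕ)) {t u0 u1 : ℝ}
    (h0 : u0 ∈ Icc t (t + 1)) (h1 : u1 ∈ Icc t (t + 1)) :
    Tendsto (fun X => ∫ u in u0..u1, PS b X u) atTop (𝓝 (∫ u in u0..u1, bl b u)) := by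
  rw [Metric.tendsto_atTop]
  intro ε hε
  -- choose `η = ε / 2` and then `X` with `64800 M² / log X / (2 η) < ε / 4`
  have hlog : Tendsto (fun X : ℕ => 64800 * M ^ 2 / Real.log X / (2 * (ε / 2))) atTop (𝓝 0) := by
    have h2 : Tendsto (fun X : ℕ => Real.log X) atTop atTop :=
      Real.tendsto_log_atTop.comp tendsto_natCast_atTop_atTop
    have h3 := (Tendsto.const_div_atTop h2 (64800 * M ^ 2)).div_const (2 * (ε / 2))
    rwa [zero_div] at h3
  obtain ⟨X0, hX0⟩ := (Metric.tendsto_atTop.1 hlog) (ε / 4) (by positivity)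
  refine ⟨max 2 X0, fun X hX => ?_⟩
  have hX2 : 2 ≤ X := (le_max_left _ _).trans hX
  have h3 := lint_norm hb hX2 t (η := ε / 2) (by positivity)
  have h4 := hX0 X ((le_max_right _ _).trans hX)
  rw [Real.dist_eq, sub_zero] at h4
  have h5 := (le_abs_self _).trans_lt h4
  have hint : IntegrableOn (fun u => bl b u - PS b X u) (Icc t (t + 1)) :=
    (integrable_bl hb t).sub ((continuous_PS b X).continuousOn.integrableOn_compact isCompact_Icc)
  have h6 : ∫ u in Icc t (t + 1), ‖bl b u - PS b X u‖ ≤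
      ε / 2 / 2 + 64800 * M ^ 2 / Real.log X / (2 * (ε / 2)) := by
    have hX0 : 0 ≤ Real.log X := Real.log_nonneg (by exact_mod_cast (by omega : 1 ≤ X))
    rw [← ofReal_integral_eq_lintegral_ofReal hint.norm (Eventually.of_forall fun u => norm_nonneg _)]
      at h3
    rwa [ENNReal.ofReal_le_ofReal_iff (by positivity)] at h3
  have h7 : (∫ u in u0..u1, PS b X u) - ∫ u in u0..u1, bl b u =
      -∫ u in u0..u1, (bl b u - PS b X u) := by
    rw [intervalIntegral.integral_sub (intervalIntegrable_bl hb h0 h1)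
      ((continuous_PS b X).intervalIntegrable _ _)]
    ring
  rw [dist_eq_norm, h7, norm_neg]
  calc ‖∫ u in u0..u1, (bl b u - PS b X u)‖ ≤ ∫ u in uIoc u0 u1, ‖bl b u - PS b X u‖ :=
        intervalIntegral.norm_integral_le_integral_norm_uIoc
    _ ≤ ∫ u in Icc t (t + 1), ‖bl b u - PS b X u‖ := by
        refine setIntegral_mono_set hint.norm (Eventually.of_forall fun u => norm_nonneg _) ?_
        exact (uIoc_subset_uIcc.trans (uIcc_subset_Icc h0 h1)).eventuallyLE
    _ ≤ ε / 2 / 2 + 64800 * M ^ 2 / Real.log X / (2 * (ε / 2)) := h6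
    _ < ε := by linarith

/-- **The boundary function is the derivative of the primitive along the edge.** -/
theorem integral_bl (hb : ∀ x, ‖b x‖ ≤ M / (x.2 + 1 : ℕ)) {t u0 u1 : ℝ}
    (h0 : u0 ∈ Icc t (t + 1)) (h1 : u1 ∈ Icc t (t + 1)) :
    I * ∫ u in u0..u1, bl b u = Pr b (1 + u1 * I) - Pr b (1 + u0 * I) := by
  have h2 := (tendsto_integral_PS hb h0 h1).const_mul I
  simp_rw [integral_PS] at h2
  have h3 : ∀ u : ℝ, Tendsto (fun X => ∑ x ∈ TX X, tm b (1 + u * I) x / (fr x : ℂ)) atTop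
      (𝓝 (Pr b (1 + u * I))) := by
    intro u
    have h4 : (1 : ℝ) ≤ ((1 : ℂ) + u * I).re := by simp
    exact (summable_Pr hb h4).hasSum.comp tendsto_TX
  exact tendsto_nhds_unique h2 ((h3 u1).sub (h3 u0))

end Pool.Agent.N881.RP
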