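import Pool.Agent.N881.RP.B

/-!
# Reflection across the edge
-/

set_option autoImplicit false

namespace Pool.Agent.N881.RP

open Complex MeasureTheory Filter Topology Set Metric
open Pool.Agent.TH339.MP

variable {b : PP → ℂ} {M : ℝ}

/-- `z log z - z`, the primitive of the logarithm -/
noncomputable def Lg (z : ℂ) : ℂ := z * Complex.log z - z

lemma Lg_hasDerivAt {z : ℂ} (hz : z ∈ slitPlane) : HasDerivAt Lg (Complex.log z) z := by
  have hz0 : z ≠ 0 := slitPlane_ne_zero hz
  have h1 := ((hasDerivAt_id z).mul (Complex.hasDerivAt_log hz)).sub (hasDerivAt_id z)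
  have h2 : (1 : ℂ) * Complex.log z + id z * z⁻¹ - 1 = Complex.log z := by
    simp only [id]
    rw [mul_inv_cancel₀ hz0]
    ring
  rw [h2] at h1
  exact h1

lemma Lg_continuousOn : ContinuousOn Lg {z : ℂ | 0 ≤ z.re} := by
  intro z hz
  by_cases h0 : z = 0
  · subst h0
    apply ContinuousAt.continuousWithinAt
    have h1 : Lg 0 = 0 := by simp [Lg]
    unfold ContinuousAt
    rw [h1]
    have h2 : Tendsto (fun z : ℂ => ‖z‖ * |Real.log ‖z‖| + Real.pi * ‖z‖ + ‖z‖) (𝓝 0) (𝓝 0) := by
      have h3 : Continuous fun z : ℂ => ‖z‖ * |Real.log ‖z‖| + Real.pi * ‖z‖ + ‖z‖ := by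
        have h4 : Continuous fun z : ℂ => ‖z‖ * Real.log ‖z‖ :=
          Real.continuous_mul_log.comp continuous_norm
        have h5 : (fun z : ℂ => ‖z‖ * |Real.log ‖z‖|) = fun z : ℂ => |‖z‖ * Real.log ‖z‖| := by
          funext z
          rw [abs_mul, abs_of_nonneg (norm_nonneg z)]
        have h6 : Continuous fun z : ℂ => ‖z‖ * |Real.log ‖z‖| := by
          rw [h5]
          exact h4.abs
        fun_prop
      have h4 := h3.tendsto 0
      simpa using h4
    refine squeeze_zero_norm (fun z => ?_) h2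
    unfold Lg
    refine (norm_sub_le _ _).trans ?_
    rw [norm_mul]
    have h5 : ‖Complex.log z‖ ≤ |Real.log ‖z‖| + Real.pi := by
      refine (Complex.norm_le_abs_re_add_abs_im _).trans ?_
      rw [Complex.log_re, Complex.log_im]
      have := Complex.abs_arg_le_pi z
      linarith
    have := mul_le_mul_of_nonneg_left h5 (norm_nonneg z)
    linarith
  · have hs : z ∈ slitPlane := by
      rw [mem_slitPlane_iff]
      rcases lt_or_eq_of_le (show (0 : ℝ) ≤ z.re from hz) with h | h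
      · exact Or.inl h
      · right
        intro him
        exact h0 (Complex.ext h.symm him)
    exact (Lg_hasDerivAt hs).continuousAt.continuousWithinAt

lemma slit_line {x : ℝ} (hx : x ≠ 0) : (x * I : ℂ) ∈ slitPlane := by
  rw [mem_slitPlane_iff]
  right
  simpa using hx

/-- the logarithmic part and the analytic part along the edge -/
lemma im_const (hb : ∀ x, ‖b x‖ ≤ M / (x.2 + 1 : ℕ)) {τ0 δ : ℝ} (hδ : δ ≤ 1 / 2) {k : ℤ}
    {φ Φ : ℂ → ℂ} (hφ : ContinuousOn φ (ball (1 + τ0 * I) δ))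
    (hΦ : ∀ s ∈ ball (1 + τ0 * I : ℂ) δ, HasDerivAt Φ (φ s) s)
    (hre : ∀ᵐ u : ℝ, |u - τ0| < δ → (bl b u).re = k * Real.log |u - τ0| + (φ (1 + u * I)).re)
    {u0 u1 : ℝ} (h0 : |u0 - τ0| < δ) (h1 : |u1 - τ0| < δ)
    (hne : ∀ u ∈ uIcc u0 u1, u ≠ τ0) :
    (Pr b (1 + u1 * I) - k * Lg ((u1 - τ0 : ℝ) * I) - Φ (1 + u1 * I)).im =
      (Pr b (1 + u0 * I) - k * Lg ((u0 - τ0 : ℝ) * I) - Φ (1 + u0 * I)).im := by
  have hmem : ∀ u : ℝ, |u - τ0| < δ → (1 + u * I : ℂ) ∈ ball (1 + τ0 * I : ℂ) δ := by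
    intro u hu
    rw [mem_ball, dist_eq_norm]
    have : (1 + u * I : ℂ) - (1 + τ0 * I) = ((u - τ0 : ℝ) : ℂ) * I := by push_cast; ring
    rw [this, norm_mul, norm_I, mul_one, Complex.norm_real]
    exact hu
  have huv : ∀ u ∈ uIcc u0 u1, |u - τ0| < δ := by
    intro u hu
    rw [abs_lt] at h0 h1 ⊢
    rw [mem_uIcc] at hu
    rcases hu with hu | hu
    · exact ⟨by linarith [hu.1, h0.1], by linarith [hu.2, h1.2]⟩
    · exact ⟨by linarith [hu.1, h1.1], by linarith [hu.2, h0.2]⟩
  have hbl := integral_bl hb (t := τ0 - 1 / 2) (u0 := u0) (u1 := u1)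
    (by rw [abs_lt] at h0; exact ⟨by linarith [h0.1], by linarith [h0.2]⟩)
    (by rw [abs_lt] at h1; exact ⟨by linarith [h1.1], by linarith [h1.2]⟩)
  have hblI := intervalIntegrable_bl hb (t := τ0 - 1 / 2) (u0 := u0) (u1 := u1)
    (by rw [abs_lt] at h0; exact ⟨by linarith [h0.1], by linarith [h0.2]⟩)
    (by rw [abs_lt] at h1; exact ⟨by linarith [h1.1], by linarith [h1.2]⟩)
  -- the other part
  set g : ℝ → ℂ := fun u => k * Complex.log ((u - τ0 : ℝ) * I) + φ (1 + u * I) with hg
  set W : ℝ → ℂ := fun u => k * Lg ((u - τ0 : ℝ) * I) + Φ (1 + u * I) with hW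
  have hWd : ∀ u ∈ uIcc u0 u1, HasDerivAt W (I * g u) u := by
    intro u hu
    have e1 : HasDerivAt (fun u : ℝ => ((u - τ0 : ℝ) : ℂ) * I) (1 * I) u := by
      have : HasDerivAt (fun u : ℝ => ((u - τ0 : ℝ) : ℂ)) 1 u := by
        have h2 := ((hasDerivAt_id u).sub_const τ0).ofReal_comp
        simpa using h2
      exact this.mul_const I
    have e2 : HasDerivAt (fun u : ℝ => (1 + (u : ℂ) * I)) (1 * I) u := by
      have : HasDerivAt (fun u : ℝ => ((u : ℝ) : ℂ)) 1 u := by
        have h2 := (hasDerivAt_id u).ofReal_comp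
        simpa using h2
      exact (this.mul_const I).const_add 1
    have e3 := (Lg_hasDerivAt (slit_line (sub_ne_zero.2 (hne u hu)))).comp u e1
    have e4 := (hΦ _ (hmem u (huv u hu))).comp u e2
    have e5 := (e3.const_mul (k : ℂ)).add e4
    have e6 : (k : ℂ) * (Complex.log ((u - τ0 : ℝ) * I) * (1 * I)) +
        φ (1 + u * I) * (1 * I) = I * g u := by
      rw [hg]
      ring
    rw [e6] at e5
    exact e5
  have hgc : ContinuousOn g (uIcc u0 u1) := by
    intro u hu
    apply ContinuousAt.continuousWithinAt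
    have e1 : ContinuousAt (fun u : ℝ => Complex.log (((u - τ0 : ℝ) : ℂ) * I)) u := by
      refine ContinuousAt.comp (f := fun u : ℝ => ((u - τ0 : ℝ) : ℂ) * I) (g := Complex.log)
        (continuousAt_clog (slit_line (sub_ne_zero.2 (hne u hu)))) ?_
      fun_prop
    have e2 : ContinuousAt (fun u : ℝ => φ (1 + u * I)) u := by
      refine ContinuousAt.comp (f := fun u : ℝ => (1 + (u : ℂ) * I)) (g := φ)
        (hφ.continuousAt (isOpen_ball.mem_nhds (hmem u (huv u hu)))) ?_
      fun_prop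
    exact (continuousAt_const.mul e1).add e2
  have hW1 : ∫ u in u0..u1, I * g u = W u1 - W u0 :=
    intervalIntegral.integral_eq_sub_of_hasDerivAt hWd
      ((continuousOn_const.mul hgc).intervalIntegrable)
  rw [intervalIntegral.integral_const_mul] at hW1
  have hgI : IntervalIntegrable g volume u0 u1 := hgc.intervalIntegrable
  have hreal : (∫ u in u0..u1, (bl b u - g u)).re = 0 := by
    have e1 : (∫ u in u0..u1, (bl b u - g u)).re = ∫ u in u0..u1, (bl b u - g u).re := by
      have := Complex.reCLM.intervalIntegral_comp_comm (hblI.sub hgI)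
      simpa using this.symm
    rw [e1]
    have e2 : ∫ u in u0..u1, (bl b u - g u).re = ∫ u in u0..u1, (0 : ℝ) := by
      refine intervalIntegral.integral_congr_ae ?_
      filter_upwards [hre] with u hu hmu
      have hu' := hu (huv u (uIoc_subset_uIcc hmu))
      rw [hg, Complex.sub_re, hu', Complex.add_re]
      have e3 : ((k : ℂ) * Complex.log ((u - τ0 : ℝ) * I)).re = k * Real.log |u - τ0| := by
        rw [show ((k : ℂ)) = (((k : ℝ)) : ℂ) by push_cast; rfl, Complex.re_ofReal_mul,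
          Complex.log_re, norm_mul, norm_I, mul_one, Complex.norm_real, Real.norm_eq_abs]
      rw [e3]
      ring
    rw [e2]
    simp
  have hfin : (Pr b (1 + u1 * I) - Pr b (1 + u0 * I)) - (W u1 - W u0) =
      I * ∫ u in u0..u1, (bl b u - g u) := by
    rw [← hbl, ← hW1, intervalIntegral.integral_sub hblI hgI]
    ring
  have him : ((Pr b (1 + u1 * I) - Pr b (1 + u0 * I)) - (W u1 - W u0)).im = 0 := by
    rw [hfin, Complex.mul_im, Complex.I_re, Complex.I_im, hreal]
    ring
  have : (Pr b (1 + u1 * I) - k * Lg ((u1 - τ0 : ℝ) * I) - Φ (1 + u1 * I)) -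
      (Pr b (1 + u0 * I) - k * Lg ((u0 - τ0 : ℝ) * I) - Φ (1 + u0 * I)) =
      (Pr b (1 + u1 * I) - Pr b (1 + u0 * I)) - (W u1 - W u0) := by
    rw [hW]
    ring
  rw [← this, Complex.sub_im] at him
  linarith

end Pool.Agent.N881.RP
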