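import Pool.Agent.N881.RP.C

/-!
# Reflection across the edge: the local theorem
-/

set_option autoImplicit false

namespace Pool.Agent.N881.RP

open Complex MeasureTheory Filter Topology Set Metric
open Pool.Agent.TH339.MP

variable {b : PP → ℂ} {M : ℝ}

/-- the auxiliary function, in the coordinate `ζ = i (s - s₀)` -/
noncomputable def QQ (b : PP → ℂ) (τ0 : ℝ) (k : ℤ) (Φ : ℂ → ℂ) (s : ℂ) : ℂ :=
  Pr b s - k * Lg (s - (1 + τ0 * I)) - Φ s

lemma QQ_line (b : PP → ℂ) (τ0 : ℝ) (k : ℤ) (Φ : ℂ → ℂ) (u : ℝ) :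
    QQ b τ0 k Φ (1 + u * I) =
      Pr b (1 + u * I) - k * Lg ((u - τ0 : ℝ) * I) - Φ (1 + u * I) := by
  unfold QQ
  have : (1 + u * I : ℂ) - (1 + τ0 * I) = ((u - τ0 : ℝ) : ℂ) * I := by push_cast; ring
  rw [this]

lemma QQ_continuousOn (hb : ∀ x, ‖b x‖ ≤ M / (x.2 + 1 : ℕ)) {τ0 δ : ℝ} {k : ℤ}
    {φ Φ : ℂ → ℂ} (hΦ : ∀ s ∈ ball (1 + τ0 * I : ℂ) δ, HasDerivAt Φ (φ s) s) :
    ContinuousOn (QQ b τ0 k Φ) {s : ℂ | s ∈ ball (1 + τ0 * I : ℂ) δ ∧ 1 ≤ s.re} := by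
  unfold QQ
  refine ((Pr_continuousOn hb).mono fun s hs => hs.2).sub ?_ |>.sub ?_
  · refine continuousOn_const.mul (Lg_continuousOn.comp (by fun_prop) ?_)
    intro s hs
    have h1 : (1 : ℝ) ≤ s.re := hs.2
    simp only [mem_ofPred_eq, sub_re, add_re, one_re, mul_re, ofReal_re, I_re, mul_zero,
      ofReal_im, I_im, mul_one, sub_self, add_zero]
    linarith
  · intro s hs
    exact (hΦ s hs.1).continuousAt.continuousWithinAt

lemma QQ_hasDerivAt (hb : ∀ x, ‖b x‖ ≤ M / (x.2 + 1 : ℕ)) {τ0 δ : ℝ} {k : ℤ}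
    {φ Φ : ℂ → ℂ} (hΦ : ∀ s ∈ ball (1 + τ0 * I : ℂ) δ, HasDerivAt Φ (φ s) s) {s : ℂ}
    (hs : s ∈ ball (1 + τ0 * I : ℂ) δ) (h1 : 1 < s.re) :
    HasDerivAt (QQ b τ0 k Φ) (FF b s - k * Complex.log (s - (1 + τ0 * I)) - φ s) s := by
  unfold QQ
  have h2 : s - (1 + τ0 * I) ∈ slitPlane := by
    rw [mem_slitPlane_iff]
    left
    simp only [sub_re, add_re, one_re, mul_re, ofReal_re, I_re, mul_zero,
      ofReal_im, I_im, mul_one, sub_self, add_zero]
    linarith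
  have h3 : HasDerivAt (fun s : ℂ => Lg (s - (1 + τ0 * I)))
      (Complex.log (s - (1 + τ0 * I))) s := by
    have := (Lg_hasDerivAt h2).comp s ((hasDerivAt_id s).sub_const (1 + τ0 * I))
    simpa [Function.comp_def] using this
  exact ((Pr_hasDerivAt hb h1).sub (h3.const_mul (k : ℂ))).sub (hΦ s hs)

lemma QQ_im (hb : ∀ x, ‖b x‖ ≤ M / (x.2 + 1 : ℕ)) {τ0 δ : ℝ} (hδ0 : 0 < δ)
    (hδ : δ ≤ 1 / 2) {k : ℤ}
    {φ Φ : ℂ → ℂ} (hφ : ContinuousOn φ (ball (1 + τ0 * I) δ))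
    (hΦ : ∀ s ∈ ball (1 + τ0 * I : ℂ) δ, HasDerivAt Φ (φ s) s)
    (hre : ∀ᵐ u : ℝ, |u - τ0| < δ → (bl b u).re = k * Real.log |u - τ0| + (φ (1 + u * I)).re)
    {u : ℝ} (hu : |u - τ0| < δ) :
    (QQ b τ0 k Φ (1 + u * I)).im = (QQ b τ0 k Φ (1 + τ0 * I)).im := by
  rcases eq_or_ne u τ0 with rfl | hne
  · rfl
  -- `v → τ0` on the same side as `u`
  have hcont : ContinuousOn (fun v : ℝ => (QQ b τ0 k Φ (1 + v * I)).im) {v | |v - τ0| < δ} := by
    refine Complex.continuous_im.comp_continuousOn ((QQ_continuousOn (k := k) hb hΦ).comp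
      (by fun_prop) ?_)
    intro v hv
    refine ⟨?_, by simp⟩
    rw [mem_ball, dist_eq_norm]
    have : (1 + v * I : ℂ) - (1 + τ0 * I) = ((v - τ0 : ℝ) : ℂ) * I := by push_cast; ring
    rw [this, norm_mul, norm_I, mul_one, Complex.norm_real]
    exact hv
  have hopen : IsOpen {v : ℝ | |v - τ0| < δ} :=
    isOpen_lt (by fun_prop) continuous_const
  have hat : ContinuousAt (fun v : ℝ => (QQ b τ0 k Φ (1 + v * I)).im) τ0 :=
    hcont.continuousAt (hopen.mem_nhds (by simpa using hδ0))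
  -- the sequence
  have hseq : Tendsto (fun n : ℕ => τ0 + (u - τ0) / ((n : ℝ) + 1)) atTop (𝓝 τ0) := by
    have h1 : Tendsto (fun n : ℕ => (u - τ0) / ((n : ℝ) + 1)) atTop (𝓝 0) := by
      have := (tendsto_one_div_add_atTop_nhds_zero_nat (𝕜 := ℝ)).const_mul (u - τ0)
      rw [mul_zero] at this
      refine this.congr fun n => ?_
      ring
    simpa using h1.const_add τ0
  have h2 := hat.tendsto.comp hseq
  have h3 : ∀ n : ℕ, (QQ b τ0 k Φ (1 + (τ0 + (u - τ0) / ((n : ℝ) + 1) : ℝ) * I)).im =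
      (QQ b τ0 k Φ (1 + u * I)).im := by
    intro n
    have hn : (1 : ℝ) ≤ (n : ℝ) + 1 := by
      have : (0 : ℝ) ≤ n := Nat.cast_nonneg n
      linarith
    have hn0 : (0 : ℝ) < (n : ℝ) + 1 := by linarith
    rw [QQ_line, QQ_line]
    refine im_const hb hδ hφ hΦ hre hu ?_ ?_
    · rw [add_sub_cancel_left, abs_div, abs_of_pos hn0]
      exact lt_of_le_of_lt (div_le_self (abs_nonneg _) hn) hu
    · intro v hv hv0
      rw [mem_uIcc] at hv
      rcases lt_or_gt_of_ne hne with h | h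
      · have h4 : (u - τ0) / ((n : ℝ) + 1) < 0 := div_neg_of_neg_of_pos (by linarith) hn0
        rcases hv with hv | hv <;> linarith [hv.1, hv.2]
      · have h4 : 0 < (u - τ0) / ((n : ℝ) + 1) := div_pos (by linarith) hn0
        rcases hv with hv | hv <;> linarith [hv.1, hv.2]
  have h4 : Tendsto (fun n : ℕ => (QQ b τ0 k Φ (1 + (τ0 + (u - τ0) / ((n : ℝ) + 1) : ℝ) * I)).im)
      atTop (𝓝 (QQ b τ0 k Φ (1 + τ0 * I)).im) := h2
  simp_rw [h3] at h4
  exact tendsto_nhds_unique tendsto_const_nhds h4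

/-- **Reflection across the edge.**  If the real part of the boundary function of `log L` is near
`τ₀` almost everywhere equal to `k log |u - τ₀| + Re φ(1 + iu)`, with `φ` analytic near `1 + iτ₀`, then
`log L - k log (s - s₀)` is analytic near `s₀ = 1 + iτ₀`. -/
theorem local_refl (hb : ∀ x, ‖b x‖ ≤ M / (x.2 + 1 : ℕ)) {τ0 δ : ℝ} (hδ0 : 0 < δ)
    (hδ : δ ≤ 1 / 2) {k : ℤ} {φ : ℂ → ℂ} (hφ : DifferentiableOn ℂ φ (ball (1 + τ0 * I) δ))
    (hre : ∀ᵐ u : ℝ, |u - τ0| < δ →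
      (bl b u).re = k * Real.log |u - τ0| + (φ (1 + u * I)).re) :
    ∃ h : ℂ → ℂ, DifferentiableOn ℂ h (ball (1 + τ0 * I) δ) ∧
      ∀ s ∈ ball (1 + τ0 * I : ℂ) δ, 1 < s.re →
        FF b s = h s + k * Complex.log (s - (1 + τ0 * I)) := by
  obtain ⟨Φ, hΦ⟩ := hφ.isExactOn_ball
  have hΦ' : ∀ s ∈ ball (1 + τ0 * I : ℂ) δ, HasDerivAt Φ (φ s) s := hΦ
  set s0 : ℂ := 1 + τ0 * I with hs0
  set c : ℝ := (QQ b τ0 k Φ s0).im with hc
  have hs0re : s0.re = 1 := by simp [hs0]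
  set hh : ℂ → ℂ := fun ζ => QQ b τ0 k Φ (s0 - I * ζ) - c * I with hhh
  have hmap : ∀ ζ : ℂ, ‖ζ‖ < δ → s0 - I * ζ ∈ ball s0 δ := by
    intro ζ hζ
    rw [mem_ball, dist_eq_norm]
    have : s0 - I * ζ - s0 = -(I * ζ) := by ring
    rw [this, norm_neg, norm_mul, norm_I, one_mul]
    exact hζ
  have hre' : ∀ ζ : ℂ, (s0 - I * ζ).re = 1 + ζ.im := by
    intro ζ
    rw [sub_re, hs0re, mul_re, I_re, I_im]
    ring
  have hc1 : ContinuousOn hh {ζ | ‖ζ‖ < δ ∧ 0 ≤ ζ.im} := by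
    refine ContinuousOn.sub ?_ continuousOn_const
    refine (QQ_continuousOn (k := k) hb hΦ').comp (by fun_prop) ?_
    intro ζ hζ
    refine ⟨hmap ζ hζ.1, ?_⟩
    rw [hre']
    linarith [hζ.2]
  have hc2 : DifferentiableOn ℂ hh {ζ | ‖ζ‖ < δ ∧ 0 < ζ.im} := by
    refine DifferentiableOn.sub ?_ (differentiableOn_const _)
    intro ζ hζ
    have h1 : 1 < (s0 - I * ζ).re := by
      rw [hre']
      linarith [hζ.2]
    have h2 := QQ_hasDerivAt (k := k) hb hΦ' (hmap ζ hζ.1) h1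
    have h3 : DifferentiableAt ℂ (fun ζ : ℂ => s0 - I * ζ) ζ := by fun_prop
    exact (h2.differentiableAt.comp ζ h3).differentiableWithinAt
  have hc3 : ∀ x : ℝ, |x| < δ → (hh x).im = 0 := by
    intro x hx
    rw [hhh]
    simp only
    have h1 : s0 - I * (x : ℂ) = 1 + (τ0 - x : ℝ) * I := by
      rw [hs0]
      push_cast
      ring
    have h2 := QQ_im (k := k) hb hδ0 hδ hφ.continuousOn hΦ' hre (u := τ0 - x) (by
      rw [sub_sub_cancel_left, abs_neg]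
      exact hx)
    rw [h1, sub_im, h2]
    simp [hc, hs0]
  obtain ⟨H, hH1, hH2⟩ := Pool.Agent.H18R3.refl hc1 hc2 hc3
  set G1 : ℂ → ℂ := fun s => H (I * (s - s0)) with hG1
  have hball : ∀ s ∈ ball s0 δ, I * (s - s0) ∈ ball (0 : ℂ) δ := by
    intro s hs
    rw [mem_ball_zero_iff, norm_mul, norm_I, one_mul]
    rwa [mem_ball, dist_eq_norm] at hs
  have hG1d : DifferentiableOn ℂ G1 (ball s0 δ) := by
    refine hH1.comp ?_ hball
    fun_prop
  have hG1e : ∀ s ∈ ball s0 δ, 1 ≤ s.re → G1 s = QQ b τ0 k Φ s - c * I := by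
    intro s hs h1
    have h2 := hball s hs
    rw [mem_ball_zero_iff] at h2
    have h3 : 0 ≤ (I * (s - s0)).im := by
      rw [mul_im, I_re, I_im, sub_re, hs0re]
      linarith
    rw [hG1]
    simp only
    rw [hH2 _ h2 h3, hhh]
    simp only
    congr 2
    rw [← mul_assoc, I_mul_I]
    ring
  have hder : DifferentiableOn ℂ (deriv G1) (ball s0 δ) := hG1d.deriv isOpen_ball
  refine ⟨fun s => deriv G1 s + φ s, hder.add hφ, fun s hs h1 => ?_⟩
  have h2 : HasDerivAt G1 (FF b s - k * Complex.log (s - s0) - φ s) s := by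
    have h3 := (QQ_hasDerivAt (k := k) hb hΦ' hs h1).sub_const (c * I)
    refine h3.congr_of_eventuallyEq ?_
    have hop : IsOpen {s : ℂ | 1 < s.re} := isOpen_lt continuous_const Complex.continuous_re
    filter_upwards [isOpen_ball.mem_nhds hs, hop.mem_nhds h1] with z hz1 hz2
    exact hG1e z hz1 (le_of_lt hz2)
  simp only [h2.deriv]
  ring

end Pool.Agent.N881.RP
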