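import Pool.Agent.N881.RP.D
import Pool.Agent.TH345.ET.U

/-!
# From the modulus to the continuation
-/

set_option autoImplicit false

namespace Pool.Agent.N881.RP

open Complex MeasureTheory Filter Topology Set Metric
open scoped ComplexConjugate
open Pool.Agent.TH339.MP

variable {b : PP → ℂ} {M : ℝ}

/-- the reflection of a meromorphic function -/
lemma mero_conj {f : ℂ → ℂ} {z : ℂ} (hf : MeromorphicAt f (conj z)) :
    MeromorphicAt (fun w => conj (f (conj w))) z := by
  obtain ⟨n, hn⟩ := hf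
  refine ⟨n, ?_⟩
  have h1 : ∀ᶠ w in 𝓝 (conj z), DifferentiableAt ℂ (fun w => (w - conj z) ^ n • f w) w :=
    hn.eventually_analyticAt.mono fun w hw => hw.differentiableAt
  rw [Complex.analyticAt_iff_eventually_differentiableAt]
  have h2 : ∀ᶠ w in 𝓝 z, DifferentiableAt ℂ (fun w => (w - conj z) ^ n • f w) (conj w) :=
    (Complex.continuous_conj.tendsto z).eventually h1
  filter_upwards [h2] with w hw
  have h3 := DifferentiableAt.conj_conj (𝕜 := ℂ) hw
  rw [Complex.conj_conj] at h3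
  refine h3.congr_of_eventuallyEq (Eventually.of_forall fun v => ?_)
  simp only [Function.comp_apply, smul_eq_mul, map_mul, map_pow, map_sub, Complex.conj_conj]

/-- the reflection of an analytic function -/
lemma analytic_conj {f : ℂ → ℂ} {z : ℂ} (hf : AnalyticAt ℂ f (conj z)) :
    AnalyticAt ℂ (fun w => conj (f (conj w))) z := by
  rw [Complex.analyticAt_iff_eventually_differentiableAt]
  have h1 : ∀ᶠ w in 𝓝 (conj z), DifferentiableAt ℂ f w :=
    hf.eventually_analyticAt.mono fun w hw => hw.differentiableAt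
  filter_upwards [(Complex.continuous_conj.tendsto z).eventually h1] with w hw
  have h3 := DifferentiableAt.conj_conj (𝕜 := ℂ) hw
  rw [Complex.conj_conj] at h3
  exact h3

lemma frequently_right {P : ℝ → Prop} {τ0 δ : ℝ} (hδ : 0 < δ)
    (h : ∀ᵐ u : ℝ, |u - τ0| < δ → P u) : ∃ᶠ u in 𝓝[>] τ0, P u := by
  intro hcon
  rw [eventually_nhdsWithin_iff, Metric.eventually_nhds_iff] at hcon
  obtain ⟨ε, hε, h1⟩ := hcon
  have h2 : volume (Ioo τ0 (τ0 + min ε δ)) = 0 := by
    refine measure_mono_null (t := {u | ¬ (|u - τ0| < δ → P u)}) ?_ h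
    intro u hu hc
    have h3 : 0 < u - τ0 := by linarith [hu.1]
    have h4 : u - τ0 < min ε δ := by linarith [hu.2]
    refine h1 (y := u) ?_ hu.1 (hc ?_)
    · rw [Real.dist_eq, abs_of_pos h3]
      exact h4.trans_le (min_le_left _ _)
    · rw [abs_of_pos h3]
      exact h4.trans_le (min_le_right _ _)
  rw [Real.volume_Ioo, add_sub_cancel_left, ENNReal.ofReal_eq_zero] at h2
  exact absurd h2 (not_le.2 (lt_min hε hδ))

lemma frequently_left {P : ℝ → Prop} {τ0 δ : ℝ} (hδ : 0 < δ)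
    (h : ∀ᵐ u : ℝ, |u - τ0| < δ → P u) : ∃ᶠ u in 𝓝[<] τ0, P u := by
  intro hcon
  rw [eventually_nhdsWithin_iff, Metric.eventually_nhds_iff] at hcon
  obtain ⟨ε, hε, h1⟩ := hcon
  have h2 : volume (Ioo (τ0 - min ε δ) τ0) = 0 := by
    refine measure_mono_null (t := {u | ¬ (|u - τ0| < δ → P u)}) ?_ h
    intro u hu hc
    have h3 : u - τ0 < 0 := by linarith [hu.2]
    have h4 : -(u - τ0) < min ε δ := by linarith [hu.1]
    refine h1 (y := u) ?_ hu.2 (hc ?_)
    · rw [Real.dist_eq, abs_of_neg h3]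
      exact h4.trans_le (min_le_left _ _)
    · rw [abs_of_neg h3]
      exact h4.trans_le (min_le_right _ _)
  rw [Real.volume_Ioo, sub_sub_cancel, ENNReal.ofReal_eq_zero] at h2
  exact absurd h2 (not_le.2 (lt_min hε hδ))

lemma tendsto_coe_right (τ0 : ℝ) : Tendsto (fun u : ℝ => (u : ℂ)) (𝓝[>] τ0) (𝓝[≠] (τ0 : ℂ)) := by
  rw [tendsto_nhdsWithin_iff]
  refine ⟨(Complex.continuous_ofReal.tendsto τ0).mono_left nhdsWithin_le_nhds, ?_⟩
  filter_upwards [self_mem_nhdsWithin] with u hu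
  have h1 : τ0 < u := hu
  simp only [mem_compl_iff, mem_singleton_iff]
  exact_mod_cast h1.ne'

lemma tendsto_coe_left (τ0 : ℝ) : Tendsto (fun u : ℝ => (u : ℂ)) (𝓝[<] τ0) (𝓝[≠] (τ0 : ℂ)) := by
  rw [tendsto_nhdsWithin_iff]
  refine ⟨(Complex.continuous_ofReal.tendsto τ0).mono_left nhdsWithin_le_nhds, ?_⟩
  filter_upwards [self_mem_nhdsWithin] with u hu
  have h1 : u < τ0 := hu
  simp only [mem_compl_iff, mem_singleton_iff]
  exact_mod_cast h1.ne

/-- the shape of a meromorphic function which is positive almost everywhere near a real point -/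
lemma shape {G : ℂ → ℂ} {τ0 δ0 : ℝ} (hδ0 : 0 < δ0) (hG : MeromorphicAt G (τ0 : ℂ)) {f : ℝ → ℝ}
    (hpos : ∀ᵐ u : ℝ, |u - τ0| < δ0 → G u = ((Real.exp (2 * f u) : ℝ) : ℂ)) :
    ∃ (k : ℤ) (δ : ℝ) (φ : ℂ → ℂ), 0 < δ ∧ δ ≤ 1 / 2 ∧ δ ≤ δ0 ∧
      DifferentiableOn ℂ φ (ball (1 + τ0 * I) δ) ∧
      ∀ᵐ u : ℝ, |u - τ0| < δ → f u = k * Real.log |u - τ0| + (φ (1 + u * I)).re := by
  have hfr := frequently_right hδ0 hpos
  have hfl := frequently_left hδ0 hpos
  have htop : meromorphicOrderAt G (τ0 : ℂ) ≠ ⊤ := by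
    intro htop
    rw [meromorphicOrderAt_eq_top_iff] at htop
    have h1 := (tendsto_coe_right τ0).eventually htop
    obtain ⟨u, h2, h3⟩ := (hfr.and_eventually h1).exists
    rw [h3] at h2
    have h4 : Real.exp (2 * f u) ≠ 0 := (Real.exp_pos _).ne'
    exact h4 (by exact_mod_cast h2.symm)
  obtain ⟨g, hg, hg0, hgG⟩ := (meromorphicOrderAt_ne_top_iff hG).1 htop
  set m : ℤ := (meromorphicOrderAt G (τ0 : ℂ)).untop₀ with hm
  set F : Set ℂ := {z : ℂ | 0 ≤ z.re ∧ z.im = 0} with hF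
  have hFc : IsClosed F := (isClosed_le continuous_const Complex.continuous_re).inter
    (isClosed_eq Complex.continuous_im continuous_const)
  -- right
  have hgr : g (τ0 : ℂ) ∈ F := by
    have h1 : Tendsto (fun u : ℝ => g (u : ℂ)) (𝓝[>] τ0) (𝓝 (g τ0)) :=
      (hg.continuousAt.tendsto.comp (Complex.continuous_ofReal.tendsto τ0)).mono_left
        nhdsWithin_le_nhds
    refine hFc.mem_of_frequently_of_tendsto ?_ h1
    have h2 := (tendsto_coe_right τ0).eventually hgG
    refine (hfr.and_eventually (h2.and self_mem_nhdsWithin)).mono ?_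
    rintro u ⟨h3, h4, h5⟩
    have h5' : τ0 < u := h5
    have hpos : 0 < (u - τ0) ^ m := zpow_pos (by linarith) m
    simp only [h3, smul_eq_mul] at h4
    have e1 : ((u : ℂ) - τ0) ^ m = (((u - τ0) ^ m : ℝ) : ℂ) := by push_cast; rfl
    rw [e1] at h4
    have e2 : g u = ((Real.exp (2 * f u) / (u - τ0) ^ m : ℝ) : ℂ) := by
      rw [Complex.ofReal_div, h4, mul_div_cancel_left₀]
      exact_mod_cast hpos.ne'
    rw [e2, hF]
    refine ⟨?_, ?_⟩
    · rw [Complex.ofReal_re]
      positivity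
    · rw [Complex.ofReal_im]
  have hgpos : 0 < (g (τ0 : ℂ)).re := by
    rcases lt_or_eq_of_le hgr.1 with h | h
    · exact h
    · exact absurd (Complex.ext h.symm hgr.2) hg0
  -- left
  have hgl : (-1 : ℂ) ^ m * g (τ0 : ℂ) ∈ F := by
    have h1 : Tendsto (fun u : ℝ => (-1 : ℂ) ^ m * g (u : ℂ)) (𝓝[<] τ0)
        (𝓝 ((-1 : ℂ) ^ m * g τ0)) :=
      ((hg.continuousAt.tendsto.comp (Complex.continuous_ofReal.tendsto τ0)).mono_left
        nhdsWithin_le_nhds).const_mul _
    refine hFc.mem_of_frequently_of_tendsto ?_ h1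
    have h2 := (tendsto_coe_left τ0).eventually hgG
    refine (hfl.and_eventually (h2.and self_mem_nhdsWithin)).mono ?_
    rintro u ⟨h3, h4, h5⟩
    have h5' : u < τ0 := h5
    have hpos : 0 < (τ0 - u) ^ m := zpow_pos (by linarith) m
    simp only [h3, smul_eq_mul] at h4
    have e1 : ((u : ℂ) - τ0) ^ m = (-1 : ℂ) ^ m * (((τ0 - u) ^ m : ℝ) : ℂ) := by
      push_cast
      rw [← mul_zpow]
      congr 1
      ring
    rw [e1] at h4
    have e2 : (-1 : ℂ) ^ m * g u = ((Real.exp (2 * f u) / (τ0 - u) ^ m : ℝ) : ℂ) := by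
      rw [Complex.ofReal_div, h4]
      have : (((τ0 - u) ^ m : ℝ) : ℂ) ≠ 0 := by exact_mod_cast hpos.ne'
      field_simp
    rw [e2, hF]
    refine ⟨?_, ?_⟩
    · rw [Complex.ofReal_re]
      positivity
    · rw [Complex.ofReal_im]
  have heven : Even m := by
    by_contra hodd
    rw [Int.not_even_iff_odd] at hodd
    rw [hodd.neg_one_zpow] at hgl
    have := hgl.1
    rw [neg_one_mul, neg_re] at this
    linarith
  obtain ⟨k, hk⟩ := heven
  -- the radius
  have hsl : g (τ0 : ℂ) ∈ slitPlane := Or.inl hgpos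
  have hev : ∀ᶠ z in 𝓝 (τ0 : ℂ), AnalyticAt ℂ g z ∧ g z ∈ slitPlane ∧
      (z ≠ (τ0 : ℂ) → G z = (z - τ0) ^ m • g z) := by
    refine hg.eventually_analyticAt.and ((hg.continuousAt.eventually
      (isOpen_slitPlane.mem_nhds hsl)).and ?_)
    exact eventually_nhdsWithin_iff.1 hgG
  obtain ⟨ρ, hρ, hρ'⟩ := Metric.eventually_nhds_iff.1 hev
  refine ⟨k, min ρ (min (1 / 2) δ0), fun s => (1 / 2 : ℂ) * Complex.log (g (-I * (s - 1))),
    lt_min hρ (lt_min (by norm_num) hδ0), (min_le_right _ _).trans (min_le_left _ _),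
    (min_le_right _ _).trans (min_le_right _ _), ?_, ?_⟩
  · intro s hs
    have h1 : dist (-I * (s - 1)) (τ0 : ℂ) < ρ := by
      rw [mem_ball, dist_eq_norm] at hs
      rw [dist_eq_norm]
      have : -I * (s - 1) - (τ0 : ℂ) = -I * (s - (1 + τ0 * I)) := by
        have := I_mul_I
        linear_combination -(τ0 : ℂ) * this
      rw [this, norm_mul, norm_neg, norm_I, one_mul]
      exact hs.trans_le (min_le_left _ _)
    obtain ⟨h2, h3, -⟩ := hρ' h1
    have h4 : DifferentiableAt ℂ (fun s : ℂ => g (-I * (s - 1))) s := by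
      refine DifferentiableAt.comp (g := g) (f := fun s : ℂ => -I * (s - 1)) s
        h2.differentiableAt ?_
      fun_prop
    exact ((h4.clog h3).const_mul _).differentiableWithinAt
  · have hae : ∀ᵐ u : ℝ, u ≠ τ0 := by
      rw [ae_iff]
      simp
    filter_upwards [hpos, hae] with u hu hne hlt
    have h1 : dist (u : ℂ) (τ0 : ℂ) < ρ := by
      rw [dist_eq_norm, ← Complex.ofReal_sub, Complex.norm_real]
      exact lt_of_lt_of_le hlt (min_le_left _ _)
    obtain ⟨-, -, h3⟩ := hρ' h1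
    have h4 := h3 (by exact_mod_cast hne)
    have h5 := hu (hlt.trans_le ((min_le_right _ _).trans (min_le_right _ _)))
    rw [h5] at h4
    have h6 : -I * ((1 + (u : ℂ) * I) - 1) = u := by
      have := I_mul_I
      linear_combination -(u : ℂ) * this
    simp only [h6]
    have h7 : ((1 / 2 : ℂ) * Complex.log (g u)).re = 1 / 2 * Real.log ‖g u‖ := by
      rw [show (1 / 2 : ℂ) = ((1 / 2 : ℝ) : ℂ) by push_cast; rfl, Complex.re_ofReal_mul,
        Complex.log_re]
    rw [h7]
    have h8 := congrArg norm h4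
    rw [Complex.norm_real, Real.norm_of_nonneg (Real.exp_pos _).le, smul_eq_mul, norm_mul,
      norm_zpow, ← Complex.ofReal_sub, Complex.norm_real, Real.norm_eq_abs] at h8
    have hu0 : 0 < |u - τ0| := abs_pos.2 (sub_ne_zero.2 hne)
    have hgu : 0 < ‖g u‖ := by
      by_contra hcon
      have : ‖g u‖ = 0 := le_antisymm (not_lt.1 hcon) (norm_nonneg _)
      rw [this, mul_zero] at h8
      exact (Real.exp_pos _).ne' h8
    have h9 := congrArg Real.log h8
    rw [Real.log_exp, Real.log_mul (zpow_pos hu0 m).ne' hgu.ne', Real.log_zpow, hk] at h9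
    push_cast at h9
    linarith

end Pool.Agent.N881.RP
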