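import Pool.Agent.N881.RP.E

/-!
# Gluing: from the local continuations and the modulus to the global continuation
-/

set_option autoImplicit false

namespace Pool.Agent.N881.RP

open Complex MeasureTheory Filter Topology Set Metric
open scoped ComplexConjugate

/-- The point `e + iz` for complex `z`. -/
noncomputable def pt (e : ℝ) (z : ℂ) : ℂ := (e : ℂ) + z * I

lemma pt_re (e : ℝ) (z : ℂ) : (pt e z).re = e - z.im := by
  unfold pt
  simp
  ring

lemma pt_analytic (e : ℝ) (z : ℂ) : AnalyticAt ℂ (pt e) z := by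
  unfold pt
  fun_prop

lemma pt_inv (e : ℝ) (s : ℂ) : pt e (-I * (s - e)) = s := by
  unfold pt
  have := I_mul_I
  linear_combination -(s - e) * this

lemma inv_pt (e : ℝ) (z : ℂ) : -I * (pt e z - e) = z := by
  unfold pt
  have := I_mul_I
  linear_combination -z * this

lemma pt_conj (e : ℝ) (s : ℂ) : pt e (conj (-I * (s - e))) = ((2 * e : ℝ) : ℂ) - conj s := by
  unfold pt
  rw [map_mul, map_neg, conj_I, map_sub, conj_ofReal]
  push_cast
  have := I_mul_I
  linear_combination (conj s - e) * this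

lemma mero_comp_pt {f : ℂ → ℂ} {e : ℝ} {z : ℂ} (hf : MeromorphicAt f (pt e z)) :
    MeromorphicAt (fun w => f (pt e w)) z :=
  hf.comp_analyticAt (pt_analytic e z)

lemma mero_comp_conj {f : ℂ → ℂ} {e : ℝ} {z : ℂ} (hf : MeromorphicAt f (pt e (conj z))) :
    MeromorphicAt (fun w => conj (f (pt e (conj w)))) z :=
  mero_conj (f := fun w => f (pt e w)) (mero_comp_pt hf)

/-- the product `f(e + iz) conj f(e + i conj z)` -/
noncomputable def sq (f : ℂ → ℂ) (e : ℝ) (z : ℂ) : ℂ := f (pt e z) * conj (f (pt e (conj z)))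

lemma mero_sq {f : ℂ → ℂ} {e : ℝ} {z : ℂ} (hf : MeromorphicAt f (pt e z))
    (hf' : MeromorphicAt f (pt e (conj z))) : MeromorphicAt (sq f e) z :=
  (mero_comp_pt hf).mul (mero_comp_conj hf')

lemma sq_real (f : ℂ → ℂ) (e : ℝ) (u : ℝ) : sq f e (u : ℂ) = ((‖f (pt e u)‖ ^ 2 : ℝ) : ℂ) := by
  unfold sq
  rw [Complex.conj_ofReal, Complex.mul_conj, Complex.normSq_eq_norm_sq]

/-- radial limits at points where there is an analytic continuation -/
lemma radial {L ψ : ℂ → ℂ} {e : ℝ} {s : ℂ} (hs : s.re = e) (hψ : ContinuousAt ψ s)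
    (h : ∀ᶠ z in 𝓝 s, e < z.re → ψ z = L z) :
    Tendsto (fun x : ℝ => L (s + x)) (𝓝[>] 0) (𝓝 (ψ s)) := by
  have h1 : Tendsto (fun x : ℝ => s + x) (𝓝[>] 0) (𝓝 s) := by
    have h4 : Continuous fun x : ℝ => (s + x : ℂ) := by fun_prop
    have h5 := h4.tendsto 0
    rw [Complex.ofReal_zero, add_zero] at h5
    exact h5.mono_left nhdsWithin_le_nhds
  refine (hψ.tendsto.comp h1).congr' ?_
  filter_upwards [h1.eventually h, self_mem_nhdsWithin] with x hx hx0
  have hx0' : (0 : ℝ) < x := hx0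
  refine hx ?_
  rw [add_re, Complex.ofReal_re, hs]
  linarith

lemma ae_of_local {P : ℝ → Prop} (h : ∀ τ0 : ℝ, ∃ δ > 0, ∀ᵐ u : ℝ, |u - τ0| < δ → P u) :
    ∀ᵐ u : ℝ, P u := by
  choose δ hδ hP using h
  have hcov := TopologicalSpace.isOpen_iUnion_countable (fun τ : ℝ => ball τ (δ τ))
    fun τ => isOpen_ball
  obtain ⟨T, hT, hTU⟩ := hcov
  have h1 : ∀ᵐ u : ℝ, ∀ τ ∈ T, |u - τ| < δ τ → P u := by
    rw [ae_ball_iff hT]
    exact fun τ _ => hP τ
  filter_upwards [h1] with u hu
  have h2 : u ∈ ⋃ τ, ball τ (δ τ) := mem_iUnion.2 ⟨u, mem_ball_self (hδ u)⟩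
  rw [← hTU] at h2
  simp only [mem_iUnion] at h2
  obtain ⟨τ, hτ, h3⟩ := h2
  rw [mem_ball, Real.dist_eq] at h3
  exact hu τ hτ h3

/-- from the continuation to the modulus, locally -/
lemma modulus_of_cont {L ψ : ℂ → ℂ} {e : ℝ} {l : ℝ → ℂ} {τ0 : ℝ}
    (hlim : ∀ᵐ τ : ℝ, Tendsto (fun x : ℝ => L (pt e τ + x)) (𝓝[>] 0) (𝓝 (l τ)))
    (hψ : MeromorphicAt ψ (pt e τ0)) (h : ∀ᶠ s in 𝓝 (pt e τ0), e < s.re → ψ s = L s) :
    ∃ δ > 0, ∀ᵐ u : ℝ, |u - τ0| < δ →
      AnalyticAt ℂ ψ (pt e u) ∧ ψ (pt e u) = l u ∧ sq ψ e (u : ℂ) = ((‖l u‖ ^ 2 : ℝ) : ℂ) := by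
  have h1 := eventually_nhdsWithin_iff.1 hψ.eventually_analyticAt
  have h2 := h1.and (eventually_eventually_nhds.2 h)
  have h3 : Tendsto (fun u : ℝ => pt e u) (𝓝 τ0) (𝓝 (pt e τ0)) := by
    have : Continuous fun u : ℝ => pt e u := by
      unfold pt
      fun_prop
    exact this.tendsto τ0
  obtain ⟨δ, hδ, h4⟩ := Metric.eventually_nhds_iff.1 (h3.eventually h2)
  refine ⟨δ, hδ, ?_⟩
  have hae : ∀ᵐ u : ℝ, u ≠ τ0 := by
    rw [ae_iff]
    simp
  filter_upwards [hlim, hae] with u hu hne hlt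
  obtain ⟨h5, h6⟩ := h4 (y := u) (by rw [Real.dist_eq]; exact hlt)
  have h7 : pt e u ≠ pt e τ0 := by
    intro h
    unfold pt at h
    have := mul_right_cancel₀ I_ne_zero (add_left_cancel h)
    exact hne (by exact_mod_cast this)
  have h8 := h5 h7
  have hre : (pt e (u : ℂ)).re = e := by
    rw [pt_re]
    simp
  have h9 := radial hre h8.continuousAt h6
  have h10 : ψ (pt e u) = l u := tendsto_nhds_unique h9 hu
  refine ⟨h8, h10, ?_⟩
  rw [sq_real, h10]

/-- the reflection identity near a point of the edge -/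
lemma refl_identity {L ψ G : ℂ → ℂ} {e : ℝ} {l : ℝ → ℂ} {τ0 δ0 : ℝ} (hδ0 : 0 < δ0)
    (hlim : ∀ᵐ τ : ℝ, Tendsto (fun x : ℝ => L (pt e τ + x)) (𝓝[>] 0) (𝓝 (l τ)))
    (hψ : MeromorphicAt ψ (pt e τ0)) (h : ∀ᶠ s in 𝓝 (pt e τ0), e < s.re → ψ s = L s)
    (hG : MeromorphicAt G (τ0 : ℂ)) (hGl : ∀ᵐ u : ℝ, |u - τ0| < δ0 → G u = ((‖l u‖ ^ 2 : ℝ) : ℂ)) :
    ∀ᶠ z in 𝓝[≠] (τ0 : ℂ), sq ψ e z = G z := by
  obtain ⟨δ, hδ, h1⟩ := modulus_of_cont hlim hψ h
  have hconj : conj (τ0 : ℂ) = τ0 := Complex.conj_ofReal τ0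
  have hE : MeromorphicAt (fun z => sq ψ e z - G z) (τ0 : ℂ) :=
    (mero_sq hψ (by rw [hconj]; exact hψ)).sub hG
  rcases hE.eventually_eq_zero_or_eventually_ne_zero with h2 | h2
  · filter_upwards [h2] with z hz
    exact sub_eq_zero.1 hz
  · exfalso
    have h3 : ∀ᵐ u : ℝ, |u - τ0| < min δ δ0 → sq ψ e (u : ℂ) = G u := by
      filter_upwards [h1, hGl] with u h4 h5 h6
      rw [(h4 (h6.trans_le (min_le_left _ _))).2.2, h5 (h6.trans_le (min_le_right _ _))]
    have h4 := frequently_right (lt_min hδ hδ0) h3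
    obtain ⟨u, h5, h6⟩ := (h4.and_eventually ((tendsto_coe_right τ0).eventually h2)).exists
    exact h6 (sub_eq_zero.2 h5)

open Classical in
/-- the glued function -/
noncomputable def glue (L G : ℂ → ℂ) (e : ℝ) (s : ℂ) : ℂ :=
  if e < s.re then L s else if s.re = e then limUnder (𝓝[>] (0 : ℝ)) (fun x : ℝ => L (s + x))
  else G (-I * (s - e)) / conj (L (((2 * e : ℝ) : ℂ) - conj s))

lemma glue_right {L G : ℂ → ℂ} {e : ℝ} {s : ℂ} (hs : e < s.re) : glue L G e s = L s := by
  unfold glue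
  rw [if_pos hs]

lemma glue_left {L G : ℂ → ℂ} {e : ℝ} {s : ℂ} (hs : s.re < e) :
    glue L G e s = G (-I * (s - e)) / conj (L (((2 * e : ℝ) : ℂ) - conj s)) := by
  unfold glue
  rw [if_neg (not_lt.2 hs.le), if_neg hs.ne]

theorem glue_meromorphic {L G : ℂ → ℂ} {e : ℝ} {l : ℝ → ℂ}
    (hL : ∀ s, e < s.re → MeromorphicAt L s)
    (hlim : ∀ᵐ τ : ℝ, Tendsto (fun x : ℝ => L (pt e τ + x)) (𝓝[>] 0) (𝓝 (l τ)))
    (hl0 : ∀ᵐ τ : ℝ, l τ ≠ 0)
    (hloc : ∀ τ0 : ℝ, ∃ ψ : ℂ → ℂ, MeromorphicAt ψ (pt e τ0) ∧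
      ∀ᶠ s in 𝓝 (pt e τ0), e < s.re → ψ s = L s)
    {V : Set ℂ} (hV : ∀ τ : ℝ, (τ : ℂ) ∈ V)
    (hG : ∀ z ∈ V, MeromorphicAt G z) (hGl : ∀ᵐ u : ℝ, G u = ((‖l u‖ ^ 2 : ℝ) : ℂ)) (s : ℂ)
    (hsV : e < s.re ∨ -I * (s - e) ∈ V) :
    MeromorphicAt (glue L G e) s := by
  rcases lt_trichotomy s.re e with hs | hs | hs
  · -- left
    have hsV' : -I * (s - e) ∈ V := by
      rcases hsV with h | h
      · exact absurd h (not_lt.2 hs.le)
      · exact h
    have h1 : MeromorphicAt (fun w => G (-I * (w - e))) s :=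
      (hG _ hsV').comp_analyticAt (g := fun w : ℂ => -I * (w - e)) (by fun_prop)
    have h2 : MeromorphicAt (fun w => conj (L (((2 * e : ℝ) : ℂ) - conj w))) s := by
      refine mero_conj (f := fun w => L (((2 * e : ℝ) : ℂ) - w)) ?_
      refine (hL (((2 * e : ℝ) : ℂ) - conj s) ?_).comp_analyticAt
        (g := fun w : ℂ => ((2 * e : ℝ) : ℂ) - w) (by fun_prop)
      rw [sub_re, Complex.ofReal_re, conj_re]
      linarith
    refine (h1.div h2).congr ?_
    have hop : IsOpen {w : ℂ | w.re < e} := isOpen_lt Complex.continuous_re continuous_const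
    refine Filter.Eventually.filter_mono nhdsWithin_le_nhds ?_
    filter_upwards [hop.mem_nhds hs] with w hw
    exact (glue_left hw).symm
  · -- on the edge
    set τ0 : ℝ := s.im with hτ0
    have hsp : s = pt e τ0 := by
      unfold pt
      apply Complex.ext
      · simp [hs]
      · simp [hτ0]
    obtain ⟨ψ, hψ, hψL⟩ := hloc τ0
    rw [← hsp] at hψ hψL
    refine hψ.congr ?_
    -- the reflection identity
    have hid := refl_identity one_pos hlim (by rw [← hsp]; exact hψ) (by rw [← hsp]; exact hψL)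
      (hG τ0 (hV τ0)) (hGl.mono fun u hu _ => hu)
    have hmap : Tendsto (fun w : ℂ => -I * (w - e)) (𝓝[≠] s) (𝓝[≠] (τ0 : ℂ)) := by
      rw [tendsto_nhdsWithin_iff]
      constructor
      · have h1 : Continuous fun w : ℂ => -I * (w - e) := by fun_prop
        have h2 := h1.tendsto s
        have h3 : -I * (s - e) = τ0 := by
          rw [hsp, inv_pt]
        rw [h3] at h2
        exact h2.mono_left nhdsWithin_le_nhds
      · filter_upwards [self_mem_nhdsWithin] with w hw
        intro h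
        have h4 : -I * (w - e) = (τ0 : ℂ) := h
        apply hw
        rw [mem_singleton_iff, ← pt_inv e w, h4, hsp]
    have hid2 := hmap.eventually hid
    -- the point is fixed under the reflection
    have hfix : ((2 * e : ℝ) : ℂ) - conj s = s := by
      rw [← pt_conj, hsp, inv_pt, Complex.conj_ofReal]
    have hrefl : Tendsto (fun w : ℂ => ((2 * e : ℝ) : ℂ) - conj w) (𝓝[≠] s) (𝓝[≠] s) := by
      rw [tendsto_nhdsWithin_iff]
      constructor
      · have h1 : Continuous fun w : ℂ => ((2 * e : ℝ) : ℂ) - conj w := by fun_prop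
        have h2 := h1.tendsto s
        rw [hfix] at h2
        exact h2.mono_left nhdsWithin_le_nhds
      · filter_upwards [self_mem_nhdsWithin] with w hw
        intro h
        have h4 : ((2 * e : ℝ) : ℂ) - conj w = s := h
        apply hw
        rw [mem_singleton_iff]
        have h5 : conj w = conj s := by
          rw [← hfix] at h4
          exact sub_right_injective h4
        exact (starRingEnd ℂ).injective h5
    have hne : ∀ᶠ w in 𝓝[≠] s, ψ w ≠ 0 := by
      rcases hψ.eventually_eq_zero_or_eventually_ne_zero with h2 | h2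
      · exfalso
        obtain ⟨δ, hδ, h1⟩ := modulus_of_cont (ψ := ψ) (τ0 := τ0) hlim
          (by rw [← hsp]; exact hψ) (by rw [← hsp]; exact hψL)
        have h3 : ∀ᵐ u : ℝ, |u - τ0| < δ → ψ (pt e u) ≠ 0 := by
          filter_upwards [h1, hl0] with u h4 h5 h6
          rw [(h4 h6).2.1]
          exact h5
        have h4 := frequently_right hδ h3
        have h5 : Tendsto (fun u : ℝ => pt e u) (𝓝[>] τ0) (𝓝[≠] s) := by
          rw [tendsto_nhdsWithin_iff]
          constructor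
          · have h6 : Continuous fun u : ℝ => pt e u := by
              unfold pt
              fun_prop
            have h7 := h6.tendsto τ0
            rw [← hsp] at h7
            exact h7.mono_left nhdsWithin_le_nhds
          · filter_upwards [self_mem_nhdsWithin] with u hu
            have hu' : τ0 < u := hu
            intro h
            rw [mem_singleton_iff, hsp] at h
            unfold pt at h
            have := mul_right_cancel₀ I_ne_zero (add_left_cancel h)
            exact hu'.ne' (by exact_mod_cast this)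
        obtain ⟨u, h6, h7⟩ := (h4.and_eventually (h5.eventually h2)).exists
        exact h6 h7
      · exact h2
    have hne2 := hrefl.eventually hne
    have hψL2 : ∀ᶠ w in 𝓝[≠] s, e < (((2 * e : ℝ) : ℂ) - conj w).re →
        ψ (((2 * e : ℝ) : ℂ) - conj w) = L (((2 * e : ℝ) : ℂ) - conj w) :=
      hrefl.eventually (hψL.filter_mono nhdsWithin_le_nhds)
    filter_upwards [hψ.eventually_analyticAt, hψL.filter_mono nhdsWithin_le_nhds,
      (eventually_eventually_nhds.2 hψL).filter_mono nhdsWithin_le_nhds, hid2, hne2, hψL2]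
      with w w1 w2 w3 w4 w5 w6
    rcases lt_trichotomy w.re e with hw | hw | hw
    · rw [glue_left hw]
      have h1 : e < (((2 * e : ℝ) : ℂ) - conj w).re := by
        rw [sub_re, Complex.ofReal_re, conj_re]
        linarith
      have h2 := w6 h1
      unfold sq at w4
      rw [pt_inv, pt_conj] at w4
      rw [← h2, ← w4, mul_div_assoc, div_self, mul_one]
      exact (map_ne_zero _).2 w5
    · unfold glue
      rw [if_neg (by rw [hw]; exact lt_irrefl _), if_pos hw]
      exact (radial hw w1.continuousAt w3).limUnder_eq.symm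
    · rw [glue_right hw]
      exact w2 hw
  · -- right
    refine (hL s hs).congr ?_
    have hop : IsOpen {w : ℂ | e < w.re} := isOpen_lt continuous_const Complex.continuous_re
    refine Filter.Eventually.filter_mono nhdsWithin_le_nhds ?_
    filter_upwards [hop.mem_nhds hs] with w hw
    exact (glue_right hw).symm

end Pool.Agent.N881.RP
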