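import Pool.Agent.N881.RP.F

/-!
# The continuation and the modulus determine each other
-/

set_option autoImplicit false

namespace Pool.Agent.N881.RP

open Complex MeasureTheory Filter Topology Set Metric
open scoped ComplexConjugate

/-- the global reflection identity -/
lemma global_identity {L Λ G : ℂ → ℂ} {e : ℝ} {l : ℝ → ℂ}
    (hlim : ∀ᵐ τ : ℝ, Tendsto (fun x : ℝ => L (pt e τ + x)) (𝓝[>] 0) (𝓝 (l τ)))
    (hΛ : ∀ s, MeromorphicAt Λ s) (h : ∀ s : ℂ, e < s.re → Λ s = L s)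
    (hG : ∀ z, MeromorphicAt G z) (hGl : ∀ᵐ u : ℝ, G u = ((‖l u‖ ^ 2 : ℝ) : ℂ)) (z : ℂ) :
    ∀ᶠ w in 𝓝[≠] z, sq Λ e w = G w := by
  have hE : MeromorphicOn (fun z => sq Λ e z - G z) univ :=
    fun z _ => (mero_sq (hΛ _) (hΛ _)).sub (hG z)
  have h0 : meromorphicOrderAt (fun z => sq Λ e z - G z) ((0 : ℝ) : ℂ) = ⊤ := by
    rw [meromorphicOrderAt_eq_top_iff]
    have h1 := refl_identity (τ0 := 0) one_pos hlim (hΛ _)
      (Eventually.of_forall fun s hs => h s hs) (hG _) (hGl.mono fun u hu _ => hu)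
    filter_upwards [h1] with w hw
    rw [hw, sub_self]
  have h1 : meromorphicOrderAt (fun z => sq Λ e z - G z) z = ⊤ := by
    by_contra hne
    exact hE.meromorphicOrderAt_ne_top_of_isPreconnected isPreconnected_univ (mem_univ z)
      (mem_univ _) hne h0
  rw [meromorphicOrderAt_eq_top_iff] at h1
  filter_upwards [h1] with w hw
  exact sub_eq_zero.1 hw

lemma order_pt {f : ℂ → ℂ} {e : ℝ} {z : ℂ} :
    meromorphicOrderAt (fun w => f (pt e w)) z = meromorphicOrderAt f (pt e z) := by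
  have h1 : HasDerivAt (pt e) I z := by
    unfold pt
    simpa using ((hasDerivAt_id z).mul_const I).const_add (e : ℂ)
  have := meromorphicOrderAt_comp_of_deriv_ne_zero (f := f) (pt_analytic e z)
    (by rw [h1.deriv]; exact I_ne_zero)
  exact this

lemma order_conj {f : ℂ → ℂ} {z : ℂ} (hf : MeromorphicAt f (conj z)) :
    meromorphicOrderAt (fun w => conj (f (conj w))) z = meromorphicOrderAt f (conj z) := by
  have hcc : Tendsto (fun w : ℂ => conj w) (𝓝[≠] z) (𝓝[≠] (conj z)) := by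
    rw [tendsto_nhdsWithin_iff]
    refine ⟨(Complex.continuous_conj.tendsto z).mono_left nhdsWithin_le_nhds, ?_⟩
    filter_upwards [self_mem_nhdsWithin] with w hw h
    exact hw ((starRingEnd ℂ).injective h)
  by_cases htop : meromorphicOrderAt f (conj z) = ⊤
  · rw [htop, meromorphicOrderAt_eq_top_iff]
    rw [meromorphicOrderAt_eq_top_iff] at htop
    filter_upwards [hcc.eventually htop] with w hw
    rw [hw, map_zero]
  · obtain ⟨g, hg, hg0, hgG⟩ := (meromorphicOrderAt_ne_top_iff hf).1 htop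
    set m : ℤ := (meromorphicOrderAt f (conj z)).untop₀ with hm
    have h1 : meromorphicOrderAt f (conj z) = (m : WithTop ℤ) := by
      rw [hm, WithTop.coe_untop₀_of_ne_top htop]
    rw [h1, meromorphicOrderAt_eq_int_iff (mero_conj hf)]
    refine ⟨fun w => conj (g (conj w)), ?_, ?_, ?_⟩
    · rw [Complex.analyticAt_iff_eventually_differentiableAt]
      have h2 : ∀ᶠ w in 𝓝 (conj z), DifferentiableAt ℂ g w :=
        hg.eventually_analyticAt.mono fun w hw => hw.differentiableAt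
      filter_upwards [(Complex.continuous_conj.tendsto z).eventually h2] with w hw
      have h3 := DifferentiableAt.conj_conj (𝕜 := ℂ) hw
      rw [Complex.conj_conj] at h3
      exact h3
    · exact (map_ne_zero _).2 hg0
    · filter_upwards [hcc.eventually hgG] with w hw
      simp only [hw, smul_eq_mul, map_mul, map_zpow₀, map_sub, Complex.conj_conj]

/-- the order of `f(e + iz) conj f(e + i conj z)` -/
lemma order_sq {f : ℂ → ℂ} {e : ℝ} {z : ℂ} (hf : MeromorphicAt f (pt e z))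
    (hf' : MeromorphicAt f (pt e (conj z))) :
    meromorphicOrderAt (sq f e) z =
      meromorphicOrderAt f (pt e z) + meromorphicOrderAt f (pt e (conj z)) := by
  have h1 : sq f e = (fun w => f (pt e w)) * fun w => conj (f (pt e (conj w))) := rfl
  rw [h1, meromorphicOrderAt_mul (mero_comp_pt hf) (mero_comp_conj hf'), order_pt]
  congr 1
  have h2 := order_conj (f := fun w => f (pt e w)) (z := z) (mero_comp_pt hf')
  rw [order_pt] at h2
  exact h2

/-- orders, and the formula, for the continuation -/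
theorem orders {L Λ G : ℂ → ℂ} {e : ℝ} {l : ℝ → ℂ}
    (hL : ∀ s, e < s.re → AnalyticAt ℂ L s ∧ L s ≠ 0)
    (hlim : ∀ᵐ τ : ℝ, Tendsto (fun x : ℝ => L (pt e τ + x)) (𝓝[>] 0) (𝓝 (l τ)))
    (hΛ : ∀ s, MeromorphicAt Λ s) (h : ∀ s : ℂ, e < s.re → Λ s = L s)
    (hG : ∀ z, MeromorphicAt G z) (hGl : ∀ᵐ u : ℝ, G u = ((‖l u‖ ^ 2 : ℝ) : ℂ)) :
    (∀ s : ℂ, s.re < e → meromorphicOrderAt Λ s = meromorphicOrderAt G (-I * (s - e))) ∧
    (∀ τ : ℝ, meromorphicOrderAt G τ =
      meromorphicOrderAt Λ (pt e τ) + meromorphicOrderAt Λ (pt e τ)) ∧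
    ∀ s : ℂ, s.re < e → AnalyticAt ℂ Λ s → AnalyticAt ℂ G (-I * (s - e)) →
      Λ s = G (-I * (s - e)) / conj (L (((2 * e : ℝ) : ℂ) - conj s)) := by
  have hid := global_identity hlim hΛ h hG hGl
  have hord : ∀ z, meromorphicOrderAt G z =
      meromorphicOrderAt Λ (pt e z) + meromorphicOrderAt Λ (pt e (conj z)) := by
    intro z
    rw [← order_sq (hΛ _) (hΛ _)]
    exact (meromorphicOrderAt_congr (hid z)).symm
  have hop : IsOpen {w : ℂ | e < w.re} := isOpen_lt continuous_const Complex.continuous_re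
  have hΛL : ∀ s : ℂ, e < s.re → Λ =ᶠ[𝓝 s] L := fun s hs => by
    filter_upwards [hop.mem_nhds hs] with w hw
    exact h w hw
  refine ⟨fun s hs => ?_, fun τ => ?_, fun s hs h1 h2 => ?_⟩
  · rw [hord, pt_inv, pt_conj]
    have h1 : e < (((2 * e : ℝ) : ℂ) - conj s).re := by
      rw [sub_re, Complex.ofReal_re, conj_re]
      linarith
    have h2 : meromorphicOrderAt Λ (((2 * e : ℝ) : ℂ) - conj s) = 0 := by
      obtain ⟨h3, h4⟩ := hL _ h1
      rw [meromorphicOrderAt_congr ((hΛL _ h1).filter_mono nhdsWithin_le_nhds),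
        h3.meromorphicOrderAt_eq, h3.analyticOrderAt_eq_zero.2 h4]
      rfl
    rw [h2, add_zero]
  · rw [hord, Complex.conj_ofReal]
  · have h3 := hid (-I * (s - e))
    have hmap : Tendsto (fun w : ℂ => -I * (w - e)) (𝓝[≠] s) (𝓝[≠] (-I * (s - e))) := by
      rw [tendsto_nhdsWithin_iff]
      constructor
      · have h1 : Continuous fun w : ℂ => -I * (w - e) := by fun_prop
        exact (h1.tendsto s).mono_left nhdsWithin_le_nhds
      · filter_upwards [self_mem_nhdsWithin] with w hw hc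
        have h4 : -I * (w - e) = -I * (s - e) := hc
        apply hw
        rw [mem_singleton_iff, ← pt_inv e w, h4, pt_inv]
    have h4 := hmap.eventually h3
    have hre : e < (((2 * e : ℝ) : ℂ) - conj s).re := by
      rw [sub_re, Complex.ofReal_re, conj_re]
      linarith
    have hcr : Tendsto (fun w : ℂ => ((2 * e : ℝ) : ℂ) - conj w) (𝓝 s)
        (𝓝 (((2 * e : ℝ) : ℂ) - conj s)) := by
      have h1 : Continuous fun w : ℂ => ((2 * e : ℝ) : ℂ) - conj w := by fun_prop
      exact h1.tendsto s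
    have h5 : ∀ᶠ w in 𝓝[≠] s, Λ w * conj (L (((2 * e : ℝ) : ℂ) - conj w)) =
        G (-I * (w - e)) := by
      filter_upwards [h4, (hcr.eventually (hop.mem_nhds hre)).filter_mono nhdsWithin_le_nhds]
        with w hw hw2
      unfold sq at hw
      rw [pt_inv, pt_conj, h _ hw2] at hw
      exact hw
    have hc1 : Tendsto (fun w => Λ w * conj (L (((2 * e : ℝ) : ℂ) - conj w))) (𝓝[≠] s)
        (𝓝 (Λ s * conj (L (((2 * e : ℝ) : ℂ) - conj s)))) := by
      have e1 := h1.continuousAt.tendsto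
      have e2 := (Complex.continuous_conj.tendsto _).comp
        (((hL _ hre).1.continuousAt.tendsto).comp hcr)
      exact (e1.mul e2).mono_left nhdsWithin_le_nhds
    have hc2 : Tendsto (fun w => G (-I * (w - e))) (𝓝[≠] s) (𝓝 (G (-I * (s - e)))) := by
      have e1 : Continuous fun w : ℂ => -I * (w - e) := by fun_prop
      exact (h2.continuousAt.tendsto.comp (e1.tendsto s)).mono_left nhdsWithin_le_nhds
    have h6 : Λ s * conj (L (((2 * e : ℝ) : ℂ) - conj s)) = G (-I * (s - e)) :=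
      tendsto_nhds_unique (hc1.congr' h5) hc2
    rw [← h6, mul_div_assoc, div_self, mul_one]
    exact (map_ne_zero _).2 (hL _ hre).2

/-- the modulus of a continuation -/
lemma modulus_global {L Λ : ℂ → ℂ} {e : ℝ} {l : ℝ → ℂ}
    (hlim : ∀ᵐ τ : ℝ, Tendsto (fun x : ℝ => L (pt e τ + x)) (𝓝[>] 0) (𝓝 (l τ)))
    (hΛ : ∀ τ : ℝ, MeromorphicAt Λ (pt e τ)) (h : ∀ s : ℂ, e < s.re → Λ s = L s) :
    ∀ᵐ u : ℝ, sq Λ e (u : ℂ) = ((‖l u‖ ^ 2 : ℝ) : ℂ) := by
  refine ae_of_local fun τ0 => ?_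
  obtain ⟨δ, hδ, h1⟩ := modulus_of_cont (τ0 := τ0) hlim (hΛ _)
    (Eventually.of_forall fun s hs => h s hs)
  exact ⟨δ, hδ, h1.mono fun u hu hlt => (hu hlt).2.2⟩

/-- normalising a meromorphic continuation -/
lemma normalise {L Λ : ℂ → ℂ} {e : ℝ} (hL : ∀ s, e < s.re → AnalyticAt ℂ L s)
    (hΛ : ∀ s, MeromorphicAt Λ s) (h : ∀ s : ℂ, e < s.re → Λ s = L s) :
    ∃ Λ' : ℂ → ℂ, (∀ s, MeromorphicAt Λ' s) ∧ (∀ s : ℂ, e < s.re → Λ' s = L s) ∧
      ∀ s, 0 ≤ meromorphicOrderAt Λ s → AnalyticAt ℂ Λ' s := by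
  have hΛ' : MeromorphicOn Λ univ := fun s _ => hΛ s
  have hNF := meromorphicNFOn_toMeromorphicNFOn Λ univ
  have hord : ∀ s, meromorphicOrderAt (toMeromorphicNFOn Λ univ) s = meromorphicOrderAt Λ s := by
    intro s
    exact meromorphicOrderAt_congr (hΛ'.toMeromorphicNFOn_eq_self_on_nhdsNE (mem_univ s))
  have han : ∀ s, 0 ≤ meromorphicOrderAt Λ s → AnalyticAt ℂ (toMeromorphicNFOn Λ univ) s := by
    intro s hs
    refine (hNF (mem_univ s)).meromorphicOrderAt_nonneg_iff_analyticAt.1 ?_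
    rwa [hord]
  refine ⟨toMeromorphicNFOn Λ univ, fun s => (hNF (mem_univ s)).meromorphicAt, fun s hs => ?_, han⟩
  have hop : IsOpen {w : ℂ | e < w.re} := isOpen_lt continuous_const Complex.continuous_re
  have hΛL : Λ =ᶠ[𝓝 s] L := by
    filter_upwards [hop.mem_nhds hs] with w hw
    exact h w hw
  have hLan := hL s hs
  have h1 : 0 ≤ meromorphicOrderAt Λ s := by
    rw [meromorphicOrderAt_congr (hΛL.filter_mono nhdsWithin_le_nhds)]
    exact hLan.meromorphicOrderAt_nonneg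
  have h2 := (han s h1).continuousAt.tendsto.mono_left (nhdsWithin_le_nhds (s := {s}ᶜ))
  have h3 : toMeromorphicNFOn Λ univ =ᶠ[𝓝[≠] s] L :=
    (hΛ'.toMeromorphicNFOn_eq_self_on_nhdsNE (mem_univ s)).trans
      (hΛL.filter_mono nhdsWithin_le_nhds)
  exact tendsto_nhds_unique (h2.congr' h3) (hLan.continuousAt.tendsto.mono_left nhdsWithin_le_nhds)

end Pool.Agent.N881.RP
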