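import Pool.Agent.N881.RP.G

/-!
# The local theorem for Euler products
-/

set_option autoImplicit false

namespace Pool.Agent.N881.RP

open Complex MeasureTheory Filter Topology Set Metric
open scoped ComplexConjugate
open Pool.Agent.TH339.MP

variable {b : PP → ℂ} {M : ℝ}

/-- **From the modulus to a local continuation.** -/
theorem mero_local (hb : ∀ x, ‖b x‖ ≤ M / (x.2 + 1 : ℕ)) {D G : ℂ → ℂ}
    (hD : ∀ s, AnalyticAt ℂ D s) (hDc : {τ : ℝ | D (1 + τ * I) = 0}.Countable) {τ0 δ0 : ℝ}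
    (hδ0 : 0 < δ0) (hG : MeromorphicAt G (τ0 : ℂ))
    (hGl : ∀ᵐ u : ℝ, |u - τ0| < δ0 →
      G u = ((‖(D (1 + u * I))⁻¹ * Complex.exp (bl b u)‖ ^ 2 : ℝ) : ℂ)) :
    ∃ ψ : ℂ → ℂ, MeromorphicAt ψ (1 + τ0 * I) ∧
      ∀ᶠ s in 𝓝 (1 + τ0 * I : ℂ), 1 < s.re → ψ s = (D s)⁻¹ * Complex.exp (FF b s) := by
  set G1 : ℂ → ℂ := fun z => G z * sq D 1 z with hG1
  have hG1m : MeromorphicAt G1 (τ0 : ℂ) :=
    hG.mul (mero_sq (hD _).meromorphicAt (hD _).meromorphicAt)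
  have hpt : ∀ u : ℝ, pt 1 u = 1 + u * I := by
    intro u
    unfold pt
    rw [Complex.ofReal_one]
  have hpos : ∀ᵐ u : ℝ, |u - τ0| < δ0 → G1 u = ((Real.exp (2 * (bl b u).re) : ℝ) : ℂ) := by
    have hne : ∀ᵐ u : ℝ, D (1 + u * I) ≠ 0 :=
      measure_eq_zero_iff_ae_notMem.1 (hDc.measure_zero volume)
    filter_upwards [hGl, hne] with u h1 h2 h3
    rw [hG1]
    simp only
    rw [h1 h3, sq_real, ← Complex.ofReal_mul, hpt, norm_mul, norm_inv, Complex.norm_exp]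
    congr 1
    have h4 : ‖D (1 + u * I)‖ ≠ 0 := norm_ne_zero_iff.2 h2
    rw [mul_comm 2 (bl b u).re, Real.exp_mul]
    rw [show (2 : ℝ) = ((2 : ℕ) : ℝ) by norm_num, Real.rpow_natCast]
    field_simp
  obtain ⟨k, δ, φ, hδ, hδ2, hδ3, hφ, hk⟩ := shape hδ0 hG1m hpos
  obtain ⟨h, hh, hF⟩ := local_refl hb hδ hδ2 hφ hk
  have hmem : (1 + τ0 * I : ℂ) ∈ ball (1 + τ0 * I : ℂ) δ := mem_ball_self hδ
  refine ⟨fun s => (D s)⁻¹ * ((s - (1 + τ0 * I)) ^ k * Complex.exp (h s)), ?_, ?_⟩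
  · have h1 : AnalyticAt ℂ h (1 + τ0 * I) := hh.analyticAt (isOpen_ball.mem_nhds hmem)
    have h2 : MeromorphicAt (fun s : ℂ => (s - (1 + τ0 * I)) ^ k) (1 + τ0 * I) := by
      have h3 : MeromorphicAt (fun s : ℂ => s - (1 + τ0 * I)) (1 + τ0 * I) :=
        (analyticAt_id.sub analyticAt_const).meromorphicAt
      exact h3.zpow k
    exact (hD _).meromorphicAt.inv.mul (h2.mul h1.cexp.meromorphicAt)
  · filter_upwards [isOpen_ball.mem_nhds hmem] with s hs h1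
    have hne : s - (1 + τ0 * I) ≠ 0 := by
      intro h0
      have := congrArg Complex.re h0
      simp at this
      linarith
    rw [hF s hs h1, Complex.exp_add, mul_comm (k : ℂ), ← Complex.cpow_def_of_ne_zero hne,
      Complex.cpow_intCast]
    ring

end Pool.Agent.N881.RP
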